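import Mathlib

/-!
# Alternating sums over subset sums
-/

set_option autoImplicit false
set_option linter.unusedSectionVars false

namespace Pool.Agent.Q42.PP

open Finset

section

variable {ι : Type} [DecidableEq ι] {G A : Type} [AddCommMonoid G] [AddCommGroup A]

/-- `∑_{S ⊆ s} (-1) ^ |S| F (x + ∑_{i ∈ S} g i)` -/
def alt (s : Finset ι) (g : ι → G) (F : G → A) (x : G) : A :=
  ∑ S ∈ s.powerset, (-1 : ℤ) ^ S.card • F (x + ∑ i ∈ S, g i)

theorem alt_empty (g : ι → G) (F : G → A) (x : G) : alt ∅ g F x = F x := by
  unfold alt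
  rw [powerset_empty, sum_singleton]
  simp

theorem alt_insert (s : Finset ι) (g : ι → G) (F : G → A) (x : G) (a : ι) (ha : a ∉ s) :
    alt (insert a s) g F x = alt s g F x - alt s g F (x + g a) := by
  unfold alt
  rw [sum_powerset_insert ha, sub_eq_add_neg, ← sum_neg_distrib]
  congr 1
  refine sum_congr rfl fun S hS => ?_
  have haS : a ∉ S := fun h => ha (mem_powerset.1 hS h)
  rw [card_insert_of_notMem haS, sum_insert haS, pow_succ, mul_neg_one, neg_smul, add_assoc]

theorem alt_congr (s : Finset ι) (g g' : ι → G) (F F' : G → A) (x : G)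
    (hg : ∀ i ∈ s, g i = g' i) (hF : ∀ y, F y = F' y) : alt s g F x = alt s g' F' x := by
  unfold alt
  refine sum_congr rfl fun S hS => ?_
  rw [hF, sum_congr rfl fun i hi => hg i (mem_powerset.1 hS hi)]

theorem alt_sub (s : Finset ι) (g : ι → G) (F F' : G → A) (x : G) :
    alt s g (fun y => F y - F' y) x = alt s g F x - alt s g F' x := by
  unfold alt
  rw [← sum_sub_distrib]
  exact sum_congr rfl fun S _ => smul_sub _ _ _

theorem alt_sum {κ : Type} (s : Finset ι) (g : ι → G) (J : Finset κ) (F : κ → G → A) (x : G) :
    alt s g (fun y => ∑ j ∈ J, F j y) x = ∑ j ∈ J, alt s g (F j) x := by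
  unfold alt
  rw [sum_comm]
  exact sum_congr rfl fun S _ => smul_sum

/-- two groups of shifts -/
theorem alt_union (s t : Finset ι) (g : ι → G) (F : G → A) (hd : Disjoint s t) (x : G) :
    alt (s ∪ t) g F x = alt s g (alt t g F) x := by
  induction s using Finset.induction_on generalizing x with
  | empty => rw [empty_union, alt_empty]
  | insert a s ha ih =>
    rw [disjoint_insert_left] at hd
    have h1 : a ∉ s ∪ t := by
      rw [mem_union, not_or]
      exact ⟨ha, hd.1⟩
    rw [insert_union, alt_insert _ _ _ _ _ h1, alt_insert _ _ _ _ _ ha, ih hd.2, ih hd.2]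

theorem alt_map {A' : Type} [AddCommGroup A'] (φ : A →+ A') (s : Finset ι) (g : ι → G) (F : G → A)
    (x : G) : φ (alt s g F x) = alt s g (fun y => φ (F y)) x := by
  unfold alt
  rw [map_sum]
  exact sum_congr rfl fun S _ => map_zsmul _ _ _

/-- transport of the shifts -/
theorem alt_comap {G' : Type} [AddCommMonoid G'] (θ : G' →+ G) (s : Finset ι) (g : ι → G')
    (F : G → A) (x : G') : alt s (fun i => θ (g i)) F (θ x) = alt s g (fun y => F (θ y)) x := by
  unfold alt
  refine sum_congr rfl fun S _ => ?_
  dsimp only
  rw [map_add, map_sum]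

end

section

variable {ι : Type} [DecidableEq ι] {K : Type} [CommRing K]

theorem alt_mul_left {G : Type} [AddCommMonoid G] (s : Finset ι) (g : ι → G) (c : K) (F : G → K)
    (x : G) : alt s g (fun y => c * F y) x = c * alt s g F x := by
  unfold alt
  rw [mul_sum]
  exact sum_congr rfl fun S _ => by rw [zsmul_eq_mul, zsmul_eq_mul]; ring

theorem pow_diff (y a : K) (m : ℕ) : y ^ m - (y + a) ^ m =
    ∑ j ∈ range m, (-(m.choose j : K) * a ^ (m - j)) * y ^ j := by
  rw [add_pow, sum_range_succ, Nat.sub_self, pow_zero, mul_one, Nat.choose_self, Nat.cast_one,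
    mul_one]
  have h : ∑ j ∈ range m, (-(m.choose j : K) * a ^ (m - j)) * y ^ j =
      -∑ j ∈ range m, y ^ j * a ^ (m - j) * (m.choose j : K) := by
    rw [← sum_neg_distrib]
    exact sum_congr rfl fun j _ => by ring
  rw [h]
  ring

/-- the alternating sum of the powers of exponent less than the number of shifts is zero -/
theorem alt_pow_zero (s : Finset ι) (g : ι → K) (m : ℕ) (hm : m < s.card) (x : K) :
    alt s g (fun y => y ^ m) x = 0 := by
  induction s using Finset.induction_on generalizing m x with
  | empty => simp at hm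
  | insert a s ha ih =>
    rw [card_insert_of_notMem ha] at hm
    rw [alt_insert _ _ _ _ _ ha]
    have h1 : alt s g (fun y => y ^ m) (x + g a) =
        alt s g (fun y => (y + g a) ^ m) x := by
      unfold alt
      refine sum_congr rfl fun S _ => ?_
      congr 2
      ring
    rw [h1, ← alt_sub]
    have h2 : ∀ y : K, y ^ m - (y + g a) ^ m =
        ∑ j ∈ range m, (-(m.choose j : K) * g a ^ (m - j)) * y ^ j := fun y => pow_diff y (g a) m
    rw [alt_congr s g g _ _ x (fun _ _ => rfl) h2, alt_sum]
    refine sum_eq_zero fun j hj => ?_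
    rw [alt_mul_left, ih j (by rw [mem_range] at hj; omega), mul_zero]

/-- the alternating sum of the powers of exponent equal to the number of shifts -/
theorem alt_pow_card (s : Finset ι) (g : ι → K) (x : K) :
    alt s g (fun y => y ^ s.card) x = (-1) ^ s.card * (s.card.factorial : K) * ∏ i ∈ s, g i := by
  induction s using Finset.induction_on generalizing x with
  | empty => rw [alt_empty]; simp
  | insert a s ha ih =>
    rw [alt_insert _ _ _ _ _ ha, card_insert_of_notMem ha]
    have h1 : alt s g (fun y => y ^ (s.card + 1)) (x + g a) =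
        alt s g (fun y => (y + g a) ^ (s.card + 1)) x := by
      unfold alt
      refine sum_congr rfl fun S _ => ?_
      congr 2
      ring
    rw [h1, ← alt_sub]
    have h2 : ∀ y : K, y ^ (s.card + 1) - (y + g a) ^ (s.card + 1) =
        ∑ j ∈ range (s.card + 1), (-((s.card + 1).choose j : K) * g a ^ (s.card + 1 - j)) * y ^ j :=
      fun y => pow_diff y (g a) (s.card + 1)
    rw [alt_congr s g g _ _ x (fun _ _ => rfl) h2, alt_sum, sum_range_succ, sum_eq_zero, zero_add]
    · rw [alt_mul_left, ih, prod_insert ha, Nat.choose_succ_self_right, Nat.factorial_succ]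
      have e : s.card + 1 - s.card = 1 := by omega
      rw [e]
      push_cast
      ring
    · intro j hj
      rw [mem_range] at hj
      rw [alt_mul_left, alt_pow_zero s g j hj, mul_zero]

end

end Pool.Agent.Q42.PP
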