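import Mathlib
import Pool.Agent.Q49.RB.Bin

/-!
# Binomial coefficients near an integer
-/

set_option autoImplicit false
set_option linter.unusedSectionVars false

namespace Pool.Agent.Q42.PP

open Finset Polynomial Pool.Agent.Q49.RB

/-- Vandermonde's identity -/
theorem bin_add (y : ℂ) (a m : ℕ) :
    bin (a + y) m = ∑ j ∈ range (m + 1), (a.choose (m - j) : ℂ) * bin y j := by
  induction a generalizing m with
  | zero =>
    rw [sum_range_succ, sum_eq_zero]
    · simp
    · intro j hj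
      rw [mem_range] at hj
      rw [Nat.choose_eq_zero_of_lt (by omega)]
      simp
  | succ a ih =>
    cases m with
    | zero => simp [bin_zero]
    | succ m =>
      have e : ((a + 1 : ℕ) : ℂ) + y = ((a : ℂ) + y) + 1 := by push_cast; ring
      rw [e, bin_pascal, ih, ih, sum_range_succ, sum_range_succ _ (m + 1)]
      have h1 : ∀ j ∈ range (m + 1), ((a + 1).choose (m + 1 - j) : ℂ) * bin y j =
          (a.choose (m + 1 - j) : ℂ) * bin y j + (a.choose (m - j) : ℂ) * bin y j := by
        intro j hj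
        rw [mem_range] at hj
        have e2 : m + 1 - j = (m - j) + 1 := by omega
        rw [e2, Nat.choose_succ_succ]
        push_cast
        ring
      rw [sum_congr rfl h1, sum_add_distrib]
      simp
      ring

section

variable {R : Subring ℂ}

/-- the product of the `e_i X - 1` -/
noncomputable def dP (e : ℕ → R) (j : ℕ) : R[X] := ∏ i ∈ range j, (C (e (i + 1)) * X - 1)

/-- the binomial coefficient of `q X` -/
noncomputable def cP (e : ℕ → R) : ℕ → R[X]
  | 0 => 1
  | j + 1 => C (e (j + 1)) * X * dP e j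

theorem cP_eval (e : ℕ → R) (q : ℕ) (w : R) (j : ℕ)
    (he : ∀ i, 1 ≤ i → i ≤ j → (e i : ℂ) = q / i) :
    (((cP e j).eval w : R) : ℂ) = bin (q * w) j := by
  cases j with
  | zero => simp [cP, bin_zero]
  | succ j =>
    have h1 : (((dP e j).eval w : R) : ℂ) = ∏ i ∈ range j, ((q : ℂ) * w - (i + 1)) / (i + 1) := by
      unfold dP
      rw [eval_prod]
      push_cast
      refine prod_congr rfl fun i hi => ?_
      rw [mem_range] at hi
      rw [eval_sub, eval_mul, eval_C, eval_X, eval_one]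
      push_cast
      rw [he (i + 1) (by omega) (by omega)]
      have : ((i : ℂ) + 1) ≠ 0 := by exact_mod_cast Nat.succ_ne_zero i
      push_cast
      field_simp
    show ((((C (e (j + 1)) * X * dP e j).eval w : R)) : ℂ) = _
    rw [eval_mul, eval_mul, eval_C, eval_X]
    push_cast
    rw [h1, he (j + 1) (by omega) le_rfl, prod_div_distrib]
    unfold bin
    rw [prod_range_succ', Nat.factorial_succ, ← prod_range_add_one_eq_factorial]
    push_cast
    have h2 : ((j : ℂ) + 1) ≠ 0 := by exact_mod_cast Nat.succ_ne_zero j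
    have h3 : (∏ i ∈ range j, ((i : ℂ) + 1)) ≠ 0 := by
      rw [prod_ne_zero_iff]
      intro i _
      exact_mod_cast Nat.succ_ne_zero i
    rw [sub_zero]
    field_simp

/-- the binomial coefficient of `a + q π X` -/
noncomputable def bP (e : ℕ → R) (π : R) (a m : ℕ) : R[X] :=
  ∑ j ∈ range (m + 1), C ((a.choose (m - j) : ℕ) : R) * (cP e j).comp (C π * X)

theorem bP_eval (e : ℕ → R) (π : R) (q a m : ℕ) (t : R)
    (he : ∀ i, 1 ≤ i → i ≤ m → (e i : ℂ) = q / i) :
    (((bP e π a m).eval t : R) : ℂ) = bin (a + q * (π * t)) m := by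
  rw [bin_add]
  unfold bP
  rw [eval_finsetSum]
  push_cast
  refine sum_congr rfl fun j hj => ?_
  rw [mem_range] at hj
  rw [eval_mul, eval_C, eval_comp, eval_mul, eval_C, eval_X]
  push_cast
  rw [cP_eval e q (π * t) j fun i h1 h2 => he i h1 (by omega)]
  push_cast
  rfl

theorem dP_mod (e f : ℕ → R) (p : ℕ) (m : ℕ) (h : ∀ i, 1 ≤ i → i ≤ m → e i = p * f i) :
    ∃ h : R[X], dP e m = C ((-1) ^ m) + C (p : R) * (X * h) := by
  induction m with
  | zero => exact ⟨0, by simp [dP]⟩
  | succ m ih =>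
    obtain ⟨g, hg⟩ := ih fun i h1 h2 => h i h1 (by omega)
    refine ⟨C (f (m + 1)) * dP e m - g, ?_⟩
    have e1 : dP e (m + 1) = dP e m * (C (e (m + 1)) * X - 1) := by
      unfold dP
      rw [prod_range_succ]
    rw [e1, h (m + 1) (by omega) le_rfl, pow_succ, C_mul, C_mul]
    have e2 : dP e m * (C (p : R) * C (f (m + 1)) * X - 1) =
        C (p : R) * (X * (C (f (m + 1)) * dP e m)) - dP e m := by ring
    rw [e2]
    conv_lhs => rw [hg]
    rw [hg]
    simp only [C_neg, C_1]
    ring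

/-- the first digit -/
theorem digit (e f : ℕ → R) (p m : ℕ) (hm : Even m) (h : ∀ i, 1 ≤ i → i ≤ m → e i = p * f i)
    (h1 : e (m + 1) = 1) (a : ℕ) : ∃ H : R[X],
      ∑ j ∈ range (m + 1 + 1), C ((a.choose (m + 1 - j) : ℕ) : R) * cP e j =
        C ((a.choose (m + 1) : ℕ) : R) + X + C (p : R) * (X * H) := by
  obtain ⟨g, hg⟩ := dP_mod e f p m h
  rw [hm.neg_one_pow, C_1] at hg
  have e1 : cP e (m + 1) = X + C (p : R) * (X * (X * g)) := by
    show C (e (m + 1)) * X * dP e m = _
    rw [hg, h1, C_1]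
    ring
  have e2 : ∀ j ∈ range m, C ((a.choose (m + 1 - (j + 1)) : ℕ) : R) * cP e (j + 1) =
      C (p : R) * (X * (C ((a.choose (m + 1 - (j + 1)) : ℕ) : R) * (C (f (j + 1)) * dP e j))) := by
    intro j hj
    rw [mem_range] at hj
    show _ * (C (e (j + 1)) * X * dP e j) = _
    rw [h (j + 1) (by omega) (by omega), C_mul]
    ring
  refine ⟨X * g + ∑ j ∈ range m, C ((a.choose (m + 1 - (j + 1)) : ℕ) : R) *
    (C (f (j + 1)) * dP e j), ?_⟩
  rw [sum_range_succ, sum_range_succ', sum_congr rfl e2, ← mul_sum, ← mul_sum, e1]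
  have e3 : cP e 0 = 1 := rfl
  rw [e3, Nat.sub_self, Nat.choose_zero_right, Nat.cast_one, C_1, Nat.sub_zero]
  ring

end

section

variable {R : Subring ℂ} {F : Type} [Field F]

/-- the function `((b ^ p - b) / π`, `b` the binomial coefficient of `a + q π X` of order `q` -/
theorem exists_g (φ : R →+* F) (e f : ℕ → R) (p m : ℕ) (hp : p.Prime) (hm : Even m)
    (h : ∀ i, 1 ≤ i → i ≤ m → e i = p * f i) (h1 : e (m + 1) = 1) (π ϖ : R) (hπ : π * ϖ = p)
    (hϖ : φ ϖ = 0) (a : ℕ) : ∃ g : R[X],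
      C π * g = bP e π a (m + 1) ^ p - bP e π a (m + 1) ∧
        g.map φ = C (φ π ^ (p - 1)) * X ^ p - X := by
  obtain ⟨H, hH⟩ := digit e f p m hm h h1 a
  obtain ⟨A, hA⟩ : ∃ A : ℕ, A = a.choose (m + 1) := ⟨_, rfl⟩
  rw [← hA] at hH
  -- `b = A + π u`
  obtain ⟨u, hu⟩ : ∃ u : R[X], u = X + C (p : R) * (X * H.comp (C π * X)) := ⟨_, rfl⟩
  have hb : bP e π a (m + 1) = C ((A : ℕ) : R) + C π * u := by
    have e1 : bP e π a (m + 1) = (∑ j ∈ range (m + 1 + 1),
        C ((a.choose (m + 1 - j) : ℕ) : R) * cP e j).comp (C π * X) := by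
      unfold bP
      rw [← Polynomial.coe_compRingHom_apply, map_sum]
      refine sum_congr rfl fun j _ => ?_
      rw [Polynomial.coe_compRingHom_apply, mul_comp, C_comp]
    rw [e1, hH, hu]
    simp only [add_comp, mul_comp, C_comp, X_comp]
    ring
  -- Fermat
  obtain ⟨f0, hf0⟩ : ∃ f0 : ℤ, ((A : ℤ)) ^ p - A = p * f0 := by
    have : Fact p.Prime := ⟨hp⟩
    have h2 : ((p : ℕ) : ℤ) ∣ (A : ℤ) ^ p - A := by
      rw [← ZMod.intCast_zmod_eq_zero_iff_dvd]
      push_cast
      rw [ZMod.pow_card, sub_self]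
    exact h2
  have hf0' : ((A : ℕ) : R) ^ p - A = p * (f0 : R) := by
    have := congrArg (fun z : ℤ => (z : R)) hf0
    push_cast at this
    exact this
  obtain ⟨s, hs⟩ := (Commute.all (C ((A : ℕ) : R)) (C π * u)).exists_add_pow_prime_eq hp
  have hφp : φ (p : R) = 0 := by rw [← hπ, map_mul, hϖ, mul_zero]
  refine ⟨C (ϖ * (f0 : R)) + C (π ^ (p - 1)) * u ^ p + C (p : R) * C ((A : ℕ) : R) * u * s - u,
    ?_, ?_⟩
  · rw [hb, hs]
    have e2 : C π * C (π ^ (p - 1)) = (C π) ^ p := by
      rw [← C_mul, ← C_pow, ← pow_succ', Nat.sub_add_cancel hp.one_lt.le]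
    have e3 : (C ((A : ℕ) : R)) ^ p = C ((A : ℕ) : R) + C π * C (ϖ * (f0 : R)) := by
      rw [← C_mul, ← C_pow, ← C_add]
      congr 1
      rw [← mul_assoc, hπ]
      linear_combination hf0'
    have e4 : ((p : ℕ) : R[X]) = C (p : R) := (C_eq_natCast p).symm
    rw [e3, mul_pow, ← e2, e4]
    ring
  · have hum : u.map φ = X := by
      rw [hu]
      simp only [Polynomial.map_add, Polynomial.map_mul, map_X, map_C, hφp, C_0, zero_mul, add_zero]
    simp only [Polynomial.map_sub, Polynomial.map_add, Polynomial.map_mul, Polynomial.map_pow,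
      map_C, hum, hφp, C_0, zero_mul, add_zero, map_mul, hϖ, map_pow, zero_add]

end

end Pool.Agent.Q42.PP
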