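import Mathlib
import Pool.Agent.Q42.PP.Alt

/-!
# Small shifts of a polynomial
-/

set_option autoImplicit false
set_option linter.unusedSectionVars false

namespace Pool.Agent.Q42.PP

open Finset Polynomial

section

variable {R : Type} [CommRing R] {F : Type} [Field F]

theorem step (φ : R →+* F) (P : R[X]) (t : R) (ht : φ t = 0) : ∃ Q : R[X],
    (∀ x, P.eval x - P.eval (x + t) = -t * Q.eval x) ∧ Q.map φ = derivative (P.map φ) := by
  obtain ⟨k, hk⟩ := binomExpansion (P.map C) X (C t)
  have h1 : (P.map C).eval (X + C t) = P.comp (X + C t) := by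
    rw [comp, eval_map, eval₂_eq_eval_map]
  refine ⟨derivative P + k * C t, fun x => ?_, ?_⟩
  · have h2 := congrArg (Polynomial.eval x) hk
    simp only [eval_add, eval_mul, eval_pow, eval_C] at h2
    have e1 : (eval (X + C t) (P.map C)).eval x = P.eval (x + t) := by
      rw [eval_map, ← comp, eval_comp]
      simp
    have e2 : (eval X (P.map C)).eval x = P.eval x := by
      rw [eval_map, ← comp, comp_X]
    have e3 : (eval X (derivative (P.map C))).eval x = (derivative P).eval x := by
      rw [derivative_map, eval_map, ← comp, comp_X]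
    rw [e1, e2, e3] at h2
    rw [h2, eval_add, eval_mul, eval_C]
    ring
  · rw [Polynomial.map_add, Polynomial.map_mul, map_C, ht, C_0, mul_zero, add_zero, derivative_map]

variable {ι : Type} [DecidableEq ι]

theorem steps (φ : R →+* F) (P : R[X]) (s : Finset ι) (t : ι → R) (ht : ∀ i ∈ s, φ (t i) = 0) :
    ∃ Q : R[X], (∀ x, alt s t (fun y => P.eval y) x =
      ((-1) ^ s.card * ∏ i ∈ s, t i) * Q.eval x) ∧ Q.map φ = derivative^[s.card] (P.map φ) := by
  induction s using Finset.induction_on with
  | empty => exact ⟨P, fun x => by rw [alt_empty]; simp, by simp⟩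
  | insert i s hi ih =>
    obtain ⟨Q, hQ, hQm⟩ := ih fun j hj => ht j (mem_insert_of_mem hj)
    obtain ⟨Q', hQ', hQm'⟩ := step φ Q (t i) (ht i (mem_insert_self _ _))
    refine ⟨Q', fun x => ?_, ?_⟩
    · rw [alt_insert _ _ _ _ _ hi, hQ, hQ, card_insert_of_notMem hi, prod_insert hi, pow_succ]
      have := hQ' x
      linear_combination ((-1) ^ s.card * ∏ i ∈ s, t i) * this
    · rw [hQm', hQm, card_insert_of_notMem hi, Function.iterate_succ_apply']

/-- the derivatives of the powers of `ρ X ^ p - X` -/
theorem derivative_tau (p : ℕ) (hp : (p : F) = 0) (ρ : F) (M w : ℕ) :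
    derivative^[w] ((C ρ * X ^ p - X) ^ M : F[X]) =
      C ((-1) ^ w * (M.descFactorial w : F)) * (C ρ * X ^ p - X) ^ (M - w) := by
  induction w with
  | zero => simp
  | succ w ih =>
    rw [Function.iterate_succ_apply', ih, derivative_C_mul, derivative_pow]
    have h1 : derivative (C ρ * X ^ p - X : F[X]) = -1 := by
      rw [derivative_sub, derivative_C_mul, derivative_X_pow, derivative_X, hp, C_0]
      ring
    rw [h1, Nat.descFactorial_succ, Nat.sub_sub]
    push_cast
    rw [pow_succ]
    simp only [C_mul, C_neg, C_1, C_pow, map_natCast]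
    ring

end

end Pool.Agent.Q42.PP
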