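import Mathlib
import Pool.Agent.Q42.PP.Alt

/-!
# Power sums
-/

set_option autoImplicit false
set_option linter.unusedSectionVars false

namespace Pool.Agent.Q42.PP

open Finset Polynomial

section

variable {ι : Type} [DecidableEq ι] {F : Type} [Field F]

theorem alt_fiber (s : Finset ι) (g : ι → F) (h : F → F) [DecidableEq F] :
    alt s g h 0 = ∑ x ∈ s.powerset.image (fun S => ∑ i ∈ S, g i),
      (∑ S ∈ s.powerset.filter (fun S => ∑ i ∈ S, g i = x), (-1 : F) ^ S.card) * h x := by
  unfold alt
  rw [← sum_fiberwise_of_maps_to (s := s.powerset) (t := s.powerset.image (fun S => ∑ i ∈ S, g i))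
    (g := fun S => ∑ i ∈ S, g i) (fun S hS => mem_image_of_mem _ hS)]
  refine sum_congr rfl fun x _ => ?_
  rw [sum_mul]
  refine sum_congr rfl fun S hS => ?_
  rw [zero_add, zsmul_eq_mul, (mem_filter.1 hS).2]
  push_cast
  ring

/-- some power sum with exponent in a given window is not zero -/
theorem exists_power (s : Finset ι) (hs : s.Nonempty) (g : ι → F) (hg : ∀ i ∈ s, g i ≠ 0)
    (hf : ((s.card.factorial : ℕ) : F) ≠ 0) (A : ℕ) :
    ∃ m, A ≤ m ∧ m < A + 2 ^ s.card ∧ alt s g (fun y => y ^ m) 0 ≠ 0 := by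
  classical
  by_contra hcon
  push Not at hcon
  have h1 : ∀ h : F[X], h.natDegree < 2 ^ s.card →
      alt s g (fun y => y ^ A * h.eval y) 0 = 0 := by
    intro h hh
    have e : ∀ y : F, y ^ A * h.eval y = ∑ j ∈ range (2 ^ s.card), h.coeff j * y ^ (A + j) := by
      intro y
      rw [eval_eq_sum_range' hh, mul_sum]
      exact sum_congr rfl fun j _ => by rw [pow_add]; ring
    rw [alt_congr s g g _ _ 0 (fun _ _ => rfl) e, alt_sum]
    refine sum_eq_zero fun j hj => ?_
    rw [mem_range] at hj
    rw [alt_mul_left, hcon (A + j) (by omega) (by omega), mul_zero]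
  set V := s.powerset.image (fun S => ∑ i ∈ S, g i) with hV
  have hVc : V.card ≤ 2 ^ s.card := by
    refine card_image_le.trans ?_
    rw [card_powerset]
  have h2 : ∀ x ∈ V, x ≠ 0 →
      ∑ S ∈ s.powerset.filter (fun S => ∑ i ∈ S, g i = x), (-1 : F) ^ S.card = 0 := by
    intro x hx hx0
    have h3 := h1 (∏ y ∈ V.erase x, (X - C y)) (by
      rw [natDegree_prod_of_monic _ _ fun y _ => monic_X_sub_C y]
      simp only [natDegree_X_sub_C, sum_const, smul_eq_mul, mul_one]
      rw [card_erase_of_mem hx]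
      have : 0 < 2 ^ s.card := by positivity
      omega)
    rw [alt_fiber, ← hV, sum_eq_single x] at h3
    · have h4 : (∏ y ∈ V.erase x, (X - C y) : F[X]).eval x ≠ 0 := by
        rw [eval_prod, prod_ne_zero_iff]
        intro y hy
        rw [eval_sub, eval_X, eval_C, sub_ne_zero]
        exact (ne_of_mem_erase hy).symm
      rcases mul_eq_zero.1 h3 with h | h
      · exact h
      · exact absurd h (mul_ne_zero (pow_ne_zero _ hx0) h4)
    · intro y hy hyx
      have : (∏ z ∈ V.erase x, (X - C z) : F[X]).eval y = 0 := by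
        rw [eval_prod]
        exact prod_eq_zero (mem_erase.2 ⟨hyx, hy⟩) (by simp)
      rw [this, mul_zero, mul_zero]
    · intro h
      exact absurd hx h
  have h5 := alt_pow_card s g 0
  rw [alt_fiber, ← hV, sum_eq_zero] at h5
  · have h6 : (-1 : F) ^ s.card * (s.card.factorial : F) * ∏ i ∈ s, g i ≠ 0 := by
      refine mul_ne_zero (mul_ne_zero (pow_ne_zero _ (neg_ne_zero.2 one_ne_zero)) hf) ?_
      rw [prod_ne_zero_iff]
      exact hg
    exact h6 h5.symm
  · intro x hx
    by_cases hx0 : x = 0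
    · rw [hx0, zero_pow (card_pos.2 hs).ne', mul_zero]
    · rw [h2 x hx hx0, zero_mul]

end

end Pool.Agent.Q42.PP
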