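import Mathlib
import Pool.Agent.Q42.PP.Alt

/-!
# Alternating sums of binomial coefficients in characteristic `p`
-/

set_option autoImplicit false
set_option linter.unusedSectionVars false

namespace Pool.Agent.Q42.PP

open Finset Polynomial

section

variable {ι : Type} [DecidableEq ι] {K : Type} [Field K] {p : ℕ} [hp : Fact p.Prime] [CharP K p]

theorem alt_pow_one_add (s : Finset ι) (a : ι → ℕ) (x : ℕ) :
    alt s a (fun x => ((1 : K[X]) + X) ^ x) x =
      (1 + X) ^ x * ∏ i ∈ s, (1 - (1 + X) ^ a i) := by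
  induction s using Finset.induction_on generalizing x with
  | empty => rw [alt_empty]; simp
  | insert i s hi ih =>
    rw [alt_insert _ _ _ _ _ hi, ih, ih, prod_insert hi, pow_add]
    ring

omit hp [CharP K p] in
theorem one_sub_pow (Z : K[X]) (α : ℕ) : ∃ h : K[X], 1 - (1 + Z) ^ α = Z * (C (-(α : K)) + Z * h) := by
  induction α with
  | zero => exact ⟨0, by simp⟩
  | succ α ih =>
    obtain ⟨h, hh⟩ := ih
    refine ⟨h + C (-(α : K)) + Z * h, ?_⟩
    have e : 1 - (1 + Z) ^ (α + 1) = (1 - (1 + Z) ^ α) * (1 + Z) - Z := by ring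
    rw [e, hh]
    push_cast
    rw [neg_add, C_add, C_neg, C_neg, C_1]
    ring

theorem factor (a v α : ℕ) (ha : a = p ^ v * α) : ∃ h : K[X],
    1 - (1 + X) ^ a = X ^ p ^ v * h ∧ h.coeff 0 = -(α : K) := by
  obtain ⟨h, hh⟩ := one_sub_pow (K := K) (X ^ p ^ v) α
  refine ⟨C (-(α : K)) + X ^ p ^ v * h, ?_, ?_⟩
  · rw [← hh, ha, pow_mul, add_pow_char_pow, one_pow]
  · have hpos : p ^ v ≠ 0 := pow_ne_zero _ hp.out.ne_zero
    rw [coeff_add, coeff_C_zero, mul_coeff_zero, coeff_X_pow, if_neg hpos.symm, zero_mul, add_zero]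

/-- the alternating sum of the binomial coefficients -/
theorem alt_choose (s : Finset ι) (a v α : ι → ℕ) (ha : ∀ i ∈ s, a i = p ^ v i * α i) (x m : ℕ) :
    (m < ∑ i ∈ s, p ^ v i → alt s a (fun x => (x.choose m : K)) x = 0) ∧
    (m = ∑ i ∈ s, p ^ v i → alt s a (fun x => (x.choose m : K)) x = ∏ i ∈ s, -(α i : K)) := by
  have h1 : alt s a (fun x => (x.choose m : K)) x =
      ((1 + X) ^ x * ∏ i ∈ s, (1 - (1 + X) ^ a i) : K[X]).coeff m := by
    rw [← alt_pow_one_add]
    have := alt_map (A' := K) ((lcoeff K m).toAddMonoidHom) s a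
      (fun x => ((1 : K[X]) + X) ^ x) x
    change ((lcoeff K m).toAddMonoidHom (alt s a (fun x => ((1 : K[X]) + X) ^ x) x)) = _ at this
    have e : (alt s a (fun x => ((1 : K[X]) + X) ^ x) x).coeff m =
        (lcoeff K m).toAddMonoidHom (alt s a (fun x => ((1 : K[X]) + X) ^ x) x) := rfl
    rw [e, this]
    refine alt_congr s a a _ _ x (fun _ _ => rfl) fun y => ?_
    show _ = ((1 + X) ^ y : K[X]).coeff m
    rw [coeff_one_add_X_pow]
  have h2 : ∃ H : K[X], ∏ i ∈ s, (1 - (1 + X) ^ a i : K[X]) = X ^ (∑ i ∈ s, p ^ v i) * H ∧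
      H.coeff 0 = ∏ i ∈ s, -(α i : K) := by
    clear h1
    induction s using Finset.induction_on with
    | empty => exact ⟨1, by simp, by simp⟩
    | insert i s hi ih =>
      obtain ⟨H, hH, hH0⟩ := ih fun j hj => ha j (mem_insert_of_mem hj)
      obtain ⟨h, hh, hh0⟩ := factor (K := K) (a i) (v i) (α i) (ha i (mem_insert_self _ _))
      refine ⟨h * H, ?_, ?_⟩
      · rw [prod_insert hi, sum_insert hi, hh, hH, pow_add]
        ring
      · rw [mul_coeff_zero, prod_insert hi, hh0, hH0]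
  obtain ⟨H, hH, hH0⟩ := h2
  rw [h1, hH]
  have e : ((1 + X) ^ x * (X ^ (∑ i ∈ s, p ^ v i) * H) : K[X]) =
      X ^ (∑ i ∈ s, p ^ v i) * ((1 + X) ^ x * H) := by ring
  rw [e]
  refine ⟨fun hm => ?_, fun hm => ?_⟩
  · rw [coeff_X_pow_mul', if_neg (by omega)]
  · rw [coeff_X_pow_mul', if_pos hm.ge, hm, Nat.sub_self, mul_coeff_zero, hH0]
    have : ((1 + X) ^ x : K[X]).coeff 0 = 1 := by
      rw [coeff_one_add_X_pow]
      simp
    rw [this, one_mul]

end

end Pool.Agent.Q42.PP
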