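import Mathlib
import Pool.Agent.Q42.PP.Alt
import Pool.Agent.Q42.PP.Wt
import Pool.Agent.Q42.PP.Cj
import Pool.Agent.Q42.PP.Dv
import Pool.Agent.Q42.PP.Pw

/-!
# The main identity
-/

set_option autoImplicit false
set_option linter.unusedSectionVars false

namespace Pool.Agent.Q42.PP

open Finset Polynomial Pool.Agent.Q49.RB

/-- the additive polynomial `ρ x ^ p - x` -/
def tau {F : Type} [Field F] (p : ℕ) [Fact p.Prime] [CharP F p] (ρ : F) : F →+ F where
  toFun x := ρ * x ^ p - x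
  map_zero' := by
    rw [zero_pow (Fact.out : p.Prime).ne_zero, mul_zero, sub_zero]
  map_add' x y := by
    rw [add_pow_char]
    ring

theorem tau_apply {F : Type} [Field F] (p : ℕ) [Fact p.Prime] [CharP F p] (ρ x : F) :
    tau p ρ x = ρ * x ^ p - x := rfl

section

variable {ι : Type} [DecidableEq ι] [Fintype ι] {R : Subring ℂ} {F : Type} [Field F]

/-- the test polynomial -/
noncomputable def testP (p q M N : ℕ) : ℂ[X] :=
  (C (1 / (p : ℂ)) * ((binP q) ^ p - binP q)) ^ M * binP N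

theorem binP_deg (m : ℕ) : (binP m).natDegree ≤ m := by
  unfold binP
  refine (natDegree_C_mul_le _ _).trans ?_
  refine (natDegree_prod_le _ _).trans ?_
  refine (sum_le_sum fun i _ => natDegree_X_sub_C_le _).trans ?_
  simp

theorem testP_deg (p q M N : ℕ) (hp : 1 ≤ p) : (testP p q M N).natDegree ≤ M * (p * q) + N := by
  unfold testP
  refine natDegree_mul_le.trans (add_le_add ?_ (binP_deg N))
  refine natDegree_pow_le.trans (Nat.mul_le_mul_left _ ?_)
  refine (natDegree_C_mul_le _ _).trans ?_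
  refine (natDegree_sub_le _ _).trans (max_le ?_ ?_)
  · exact natDegree_pow_le.trans (Nat.mul_le_mul_left _ (binP_deg q))
  · refine (binP_deg q).trans ?_
    exact Nat.le_mul_of_pos_left _ hp

theorem testP_int (p q M N : ℕ) (hp : p.Prime) (y : ℕ) :
    ∃ z : ℤ, (testP p q M N).eval (y : ℂ) = z := by
  have : Fact p.Prime := ⟨hp⟩
  obtain ⟨f0, hf0⟩ : ∃ f0 : ℤ, ((y.choose q : ℕ) : ℤ) ^ p - (y.choose q : ℕ) = p * f0 := by
    have h2 : ((p : ℕ) : ℤ) ∣ ((y.choose q : ℕ) : ℤ) ^ p - (y.choose q : ℕ) := by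
      rw [← ZMod.intCast_zmod_eq_zero_iff_dvd]
      push_cast
      rw [ZMod.pow_card, sub_self]
    exact h2
  refine ⟨f0 ^ M * (y.choose N : ℕ), ?_⟩
  have hp0 : (p : ℂ) ≠ 0 := by exact_mod_cast hp.ne_zero
  unfold testP
  rw [eval_mul, eval_pow, eval_mul, eval_C, eval_sub, eval_pow, binP_eval, binP_eval, bin_nat,
    bin_nat]
  have h3 := congrArg (fun z : ℤ => (z : ℂ)) hf0
  push_cast at h3
  rw [h3]
  push_cast
  congr 2
  field_simp

variable (φ : R →+* F) (p q m : ℕ) [hp : Fact p.Prime] [CharP F p]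

theorem main_identity (hq : q = m + 1) (hm : Even m) (n : ℕ) (e f : ℕ → R)
    (he : ∀ i, 1 ≤ i → i < p * q → (e i : ℂ) = q / i)
    (hf : ∀ i, 1 ≤ i → i ≤ m → e i = p * f i)
    (π ϖ : R) (hπ : π * ϖ = p) (hϖ : φ ϖ = 0)
    (a v α : ι → ℕ) (t : ι → R) (U W W' : Finset ι) (hUW : Disjoint U W) (hUW' : Disjoint U W')
    (hWW' : Disjoint W W') (huniv : ∀ i, i ∈ U ∪ W ∪ W')
    (hW : ∀ i ∈ W, a i = 0 ∧ φ (t i) = 0)
    (hW' : ∀ i ∈ W', φ (t i) = 0 ∧ a i = p ^ v i * α i ∧ (α i : F) ≠ 0)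
    (N M : ℕ) (hN : N = ∑ i ∈ W', p ^ v i) (hNq : N < p * q)
    (hM : (M.descFactorial W.card : F) ≠ 0)
    (hU : alt U (fun i => tau p (φ π ^ (p - 1)) (φ (t i))) (fun y => y ^ (M - W.card)) 0 ≠ 0)
    (hn : M * (p * q) + N ≤ n)
    (hI : Integral n (fun S : Finset ι => (-1 : ℤ) ^ S.card)
      (fun S => ∑ i ∈ S, ((a i : ℂ) + q * (π * t i)))) :
    ∃ (E : ℤ) (Y : R), φ Y ≠ 0 ∧ ϖ ^ M * (E : R) = ((-1) ^ W.card * ∏ i ∈ W, t i) * Y := by
  have hp0 : (p : ℂ) ≠ 0 := by exact_mod_cast hp.out.ne_zero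
  have hπC : (π : ℂ) * ϖ = p := by
    have := congrArg (fun z : R => (z : ℂ)) hπ
    push_cast at this
    exact this
  have hπ0 : (π : ℂ) ≠ 0 := by
    intro h
    rw [h, zero_mul] at hπC
    exact hp0 hπC.symm
  have he1 : e (m + 1) = 1 := by
    apply Subtype.ext
    rw [he (m + 1) (by omega) (by
      rw [hq]
      have := hp.out.one_lt
      nlinarith), hq]
    have : ((m : ℂ) + 1) ≠ 0 := by exact_mod_cast Nat.succ_ne_zero m
    push_cast
    exact div_self this
  have hg := fun a : ℕ => exists_g φ e f p m hp.out hm hf he1 π ϖ hπ hϖ a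
  choose g hg1 hg2 using hg
  -- the functions
  set P : ℕ → R[X] := fun a => g a ^ M * bP e π a N with hP
  obtain ⟨E, hE⟩ := hI.poly (testP p q M N) ((testP_deg p q M N hp.out.one_lt.le).trans hn)
    (testP_int p q M N hp.out)
  have hval : ∀ (A : ℕ) (T : R), ((ϖ : ℂ) ^ M) * (testP p q M N).eval ((A : ℂ) + q * (π * T)) =
      (((P A).eval T : R) : ℂ) := by
    intro A T
    have h1 : (((g A).eval T : R) : ℂ) = (bin ((A : ℂ) + q * (π * T)) q ^ p -
        bin ((A : ℂ) + q * (π * T)) q) / π := by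
      have h2 := congrArg (fun Q : R[X] => ((Q.eval T : R) : ℂ)) (hg1 A)
      simp only [eval_mul, eval_C, eval_sub, eval_pow] at h2
      push_cast at h2
      rw [bP_eval e π q A (m + 1) T (fun i h3 h4 => he i h3 (by
        rw [hq]
        have := hp.out.one_lt
        nlinarith)), ← hq] at h2
      rw [eq_div_iff hπ0, ← h2]
      ring
    rw [hP]
    simp only [eval_mul, eval_pow]
    push_cast
    rw [h1, bP_eval e π q A N T (fun i h3 h4 => he i h3 (by omega))]
    unfold testP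
    rw [eval_mul, eval_pow, eval_mul, eval_C, eval_sub, eval_pow, binP_eval, binP_eval,
      ← mul_assoc, ← mul_pow]
    congr 2
    rw [← hπC]
    have hϖ0 : (ϖ : ℂ) ≠ 0 := by
      intro h
      rw [h, mul_zero] at hπC
      exact hp0 hπC.symm
    field_simp
  -- the alternating sum
  set G : ι → ℕ × R := fun i => (a i, t i) with hG
  set F0 : ℕ × R → R := fun z => (P z.1).eval z.2 with hF0
  have hsumG : ∀ S : Finset ι, ∑ i ∈ S, G i = (∑ i ∈ S, a i, ∑ i ∈ S, t i) := by
    intro S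
    exact Prod.ext (by rw [Prod.fst_sum]) (by rw [Prod.snd_sum])
  have hmain : ϖ ^ M * (E : R) = alt univ G F0 0 := by
    apply Subtype.ext
    push_cast
    rw [← hE, mul_sum]
    unfold alt
    rw [powerset_univ]
    push_cast
    refine sum_congr rfl fun S _ => ?_
    rw [zero_add, hsumG, zsmul_eq_mul]
    push_cast
    rw [hF0]
    dsimp only
    rw [← hval]
    have h1 : ∑ i ∈ S, ((a i : ℂ) + q * (π * t i)) =
        ((∑ i ∈ S, a i : ℕ) : ℂ) + q * (π * ((∑ i ∈ S, t i : R) : ℂ)) := by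
      push_cast
      rw [sum_add_distrib, mul_sum, mul_sum]
    rw [h1]
    ring
  -- the small shifts
  have hQ := fun A : ℕ => steps φ (P A) W t fun i hi => (hW i hi).2
  choose Q hQ1 hQ2 using hQ
  set c : R := (-1) ^ W.card * ∏ i ∈ W, t i with hc
  have hWalt : ∀ z : ℕ × R, alt W G F0 z = c * (Q z.1).eval z.2 := by
    rintro ⟨A, x⟩
    rw [← hQ1 A x]
    unfold alt
    refine sum_congr rfl fun S hS => ?_
    congr 1
    rw [hF0]
    dsimp only
    have h2 : ∑ i ∈ S, G i = (0, ∑ i ∈ S, t i) := by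
      rw [hsumG]
      congr 1
      exact sum_eq_zero fun i hi => (hW i (mem_powerset.1 hS hi)).1
    rw [h2]
    simp
  have hu : (univ : Finset ι) = (U ∪ W') ∪ W := by
    ext i
    have := huniv i
    simp only [mem_union, mem_univ, true_iff] at this ⊢
    tauto
  have hd : Disjoint (U ∪ W') W := by
    rw [disjoint_union_left]
    exact ⟨hUW, hWW'.symm⟩
  set Y : R := alt (U ∪ W') G (fun z => (Q z.1).eval z.2) 0 with hY
  refine ⟨E, Y, ?_, ?_⟩
  swap
  · rw [hmain, hu, alt_union _ _ _ _ hd, alt_congr _ G G _ _ 0 (fun _ _ => rfl) hWalt,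
      alt_mul_left]
  -- the residue
  set ρ : F := φ π ^ (p - 1) with hρ
  have hpF : (p : F) = 0 := CharP.cast_eq_zero F p
  set w : ℕ := W.card with hw
  set K : ℕ → F → F := fun j x => (derivative^[w]
    ((C ρ * X ^ p - X) ^ M * ((cP e j).comp (C π * X)).map φ)).eval x with hK
  have hQK : ∀ (A : ℕ) (x : F), ((Q A).map φ).eval x =
      ∑ j ∈ range (N + 1), ((A.choose (N - j) : ℕ) : F) * K j x := by
    intro A x
    rw [hQ2, hP]
    dsimp only
    rw [Polynomial.map_mul, Polynomial.map_pow, hg2]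
    have h1 : (bP e π A N).map φ = ∑ j ∈ range (N + 1), C ((A.choose (N - j) : ℕ) : F) *
        ((cP e j).comp (C π * X)).map φ := by
      unfold bP
      rw [Polynomial.map_sum]
      refine sum_congr rfl fun j _ => ?_
      rw [Polynomial.map_mul, Polynomial.map_C, map_natCast]
    have h2 : (C ρ * X ^ p - X) ^ M * (bP e π A N).map φ = ∑ j ∈ range (N + 1),
        C ((A.choose (N - j) : ℕ) : F) * ((C ρ * X ^ p - X) ^ M *
          ((cP e j).comp (C π * X)).map φ) := by
      rw [h1, mul_sum]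
      exact sum_congr rfl fun j _ => by ring
    rw [h2, iterate_derivative_sum, eval_finsetSum]
    refine sum_congr rfl fun j _ => ?_
    rw [iterate_derivative_C_mul, eval_mul, eval_C]
  have hK0 : ∀ x, K 0 x = ((-1) ^ w * (M.descFactorial w : F)) * (tau p ρ x) ^ (M - w) := by
    intro x
    rw [hK]
    dsimp only
    have h1 : (cP e 0).comp (C π * X) = 1 := by
      show (1 : R[X]).comp _ = 1
      exact one_comp
    rw [h1, Polynomial.map_one, mul_one, derivative_tau p hpF ρ M w, tau_apply]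
    simp
  have hY1 : φ Y = alt (U ∪ W') (fun i => (a i, φ (t i))) (fun z : ℕ × F =>
      ∑ j ∈ range (N + 1), ((z.1.choose (N - j) : ℕ) : F) * K j z.2) 0 := by
    rw [hY]
    have h1 := alt_map (φ : R →+ F) (U ∪ W') G (fun z => (Q z.1).eval z.2) 0
    change φ _ = _ at h1
    rw [h1]
    have h2 := alt_comap (AddMonoidHom.prodMap (AddMonoidHom.id ℕ) (φ : R →+ F)) (U ∪ W') G
      (fun z : ℕ × F => ∑ j ∈ range (N + 1), ((z.1.choose (N - j) : ℕ) : F) * K j z.2) 0
    rw [map_zero] at h2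
    refine Eq.trans ?_ h2.symm
    refine alt_congr _ G G _ _ 0 (fun _ _ => rfl) fun z => ?_
    show φ ((Q z.1).eval z.2) = _
    rw [← eval_map_apply, hQK]
    rfl
  rw [hY1, alt_union _ _ _ _ hUW']
  set u : F := ∏ i ∈ W', -(α i : F) with hudef
  have hu0 : u ≠ 0 := by
    rw [hudef, prod_ne_zero_iff]
    intro i hi
    exact neg_ne_zero.2 (hW' i hi).2.2
  have hinner : ∀ z : ℕ × F, alt W' (fun i => (a i, φ (t i))) (fun z : ℕ × F =>
      ∑ j ∈ range (N + 1), ((z.1.choose (N - j) : ℕ) : F) * K j z.2) z = u * K 0 z.2 := by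
    rintro ⟨A, x⟩
    rw [alt_sum]
    have h1 : ∀ j ∈ range (N + 1), alt W' (fun i => (a i, φ (t i)))
        (fun z : ℕ × F => ((z.1.choose (N - j) : ℕ) : F) * K j z.2) (A, x) =
        alt W' a (fun y => ((y.choose (N - j) : ℕ) : F)) A * K j x := by
      intro j _
      unfold alt
      rw [sum_mul]
      refine sum_congr rfl fun S hS => ?_
      have h2 : ∑ i ∈ S, ((a i, φ (t i)) : ℕ × F) = (∑ i ∈ S, a i, 0) := by
        refine Prod.ext (by rw [Prod.fst_sum]) ?_
        rw [Prod.snd_sum]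
        exact sum_eq_zero fun i hi => (hW' i (mem_powerset.1 hS hi)).1
      rw [h2, zsmul_eq_mul, zsmul_eq_mul]
      simp only [Prod.mk_add_mk, add_zero]
      ring
    rw [sum_congr rfl h1, sum_range_succ', sum_eq_zero, zero_add]
    · rw [(alt_choose W' a v α (fun i hi => (hW' i hi).2.1) A (N - 0)).2 (by rw [Nat.sub_zero, hN])]
    · intro j hj
      rw [mem_range] at hj
      rw [(alt_choose W' a v α (fun i hi => (hW' i hi).2.1) A (N - (j + 1))).1 (by
        rw [← hN]
        omega), zero_mul]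
  rw [alt_congr _ _ _ _ _ 0 (fun _ _ => rfl) hinner]
  have h3 : alt U (fun i => (a i, φ (t i))) (fun z : ℕ × F => u * K 0 z.2) 0 =
      u * (((-1) ^ w * (M.descFactorial w : F)) *
        alt U (fun i => tau p ρ (φ (t i))) (fun y => y ^ (M - w)) 0) := by
    rw [← alt_mul_left, ← alt_mul_left]
    have h4 := alt_comap ((tau p ρ).comp (AddMonoidHom.snd ℕ F)) U (fun i => (a i, φ (t i)))
      (fun y => u * (((-1) ^ w * (M.descFactorial w : F)) * y ^ (M - w))) 0
    rw [map_zero] at h4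
    refine Eq.trans ?_ h4.symm
    refine alt_congr _ _ _ _ _ 0 (fun _ _ => rfl) fun z => ?_
    rw [hK0]
    rfl
  rw [h3]
  exact mul_ne_zero hu0 (mul_ne_zero (mul_ne_zero (pow_ne_zero _ (neg_ne_zero.2 one_ne_zero)) hM) hU)

end

end Pool.Agent.Q42.PP
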