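import Mathlib

/-!
# Valuation rings of the complex numbers above a prime number
-/

set_option autoImplicit false
set_option linter.unusedSectionVars false

namespace Pool.Agent.Q42.PP

open Finset Polynomial

/-- a valuation ring of `ℂ` with a homomorphism to a field which has the maximal ideal as kernel -/
structure VR (R : Subring ℂ) {F : Type} [Field F] (φ : R →+* F) : Prop where
  tot : ∀ x : ℂ, x ∈ R ∨ x⁻¹ ∈ R
  loc : ∀ x : R, φ x ≠ 0 → (x : ℂ)⁻¹ ∈ R

namespace VR

variable {R : Subring ℂ} {F : Type} [Field F] {φ : R →+* F}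

theorem unit (h : VR R φ) (x : R) (hx : φ x ≠ 0) : ∃ y : R, x * y = 1 := by
  refine ⟨⟨(x : ℂ)⁻¹, h.loc x hx⟩, ?_⟩
  apply Subtype.ext
  have : (x : ℂ) ≠ 0 := by
    intro h0
    apply hx
    have : x = 0 := Subtype.ext h0
    rw [this, map_zero]
  push_cast
  exact mul_inv_cancel₀ this

theorem nonunit (x y : R) (hx : φ x = 0) : x * y ≠ 1 := by
  intro h
  have := congrArg φ h
  rw [map_mul, hx, zero_mul, map_one] at this
  exact zero_ne_one this

theorem dvd_total (h : VR R φ) (x y : R) : x ∣ y ∨ y ∣ x := by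
  by_cases hy : (y : ℂ) = 0
  · left
    have : y = 0 := Subtype.ext hy
    rw [this]
    exact dvd_zero _
  · by_cases hx : (x : ℂ) = 0
    · right
      have : x = 0 := Subtype.ext hx
      rw [this]
      exact dvd_zero _
    rcases h.tot ((x : ℂ) / y) with h1 | h1
    · right
      refine ⟨⟨_, h1⟩, ?_⟩
      apply Subtype.ext
      push_cast
      field_simp
    · left
      refine ⟨⟨_, h1⟩, ?_⟩
      apply Subtype.ext
      push_cast
      field_simp

theorem exists_min {ι : Type} [DecidableEq ι] (h : VR R φ) (s : Finset ι) (hs : s.Nonempty)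
    (x : ι → R) : ∃ i ∈ s, ∀ j ∈ s, x i ∣ x j := by
  induction hs using Finset.Nonempty.cons_induction with
  | singleton a => exact ⟨a, mem_singleton_self a, fun j hj => by rw [mem_singleton.1 hj]⟩
  | cons a s ha hs ih =>
    obtain ⟨i, hi, hij⟩ := ih
    rcases h.dvd_total (x a) (x i) with h1 | h1
    · refine ⟨a, mem_cons_self _ _, fun j hj => ?_⟩
      rcases mem_cons.1 hj with rfl | hj
      · exact dvd_rfl
      · exact h1.trans (hij j hj)
    · refine ⟨i, mem_cons_of_mem hi, fun j hj => ?_⟩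
      rcases mem_cons.1 hj with rfl | hj
      · exact h1
      · exact hij j hj

variable {p : ℕ}

theorem int_unit (h : VR R φ) [hp : Fact p.Prime] [CharP F p] (u : ℤ) (hu : ¬ (p : ℤ) ∣ u) :
    ∃ y : R, (u : R) * y = 1 := by
  apply h.unit
  rw [map_intCast]
  intro h0
  exact hu ((CharP.intCast_eq_zero_iff F p u).1 h0)

/-- divisibility of integers -/
theorem int_dvd (h : VR R φ) [hp : Fact p.Prime] [CharP F p] (c : ℤ) (k : ℕ) (y : R)
    (hc : (c : R) = (p : R) ^ k * y) : (p : ℤ) ^ k ∣ c := by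
  induction k generalizing c with
  | zero => simp
  | succ k ih =>
    have h1 : φ (c : R) = 0 := by
      rw [hc, map_mul, map_pow, map_natCast, CharP.cast_eq_zero, pow_succ, mul_zero, zero_mul]
    rw [map_intCast] at h1
    obtain ⟨d, rfl⟩ := (CharP.intCast_eq_zero_iff F p c).1 h1
    have hp0 : ((p : ℕ) : R) ≠ 0 := by
      intro h0
      have := congrArg (fun z : R => (z : ℂ)) h0
      push_cast at this
      exact hp.out.ne_zero (by exact_mod_cast this)
    have h2 : (d : R) = (p : R) ^ k * y := by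
      apply mul_left_cancel₀ hp0
      rw [← mul_assoc, ← pow_succ']
      push_cast at hc
      exact hc
    rw [pow_succ']
    exact mul_dvd_mul_left _ (ih d h2)

/-- the quotients of `p ^ k` by the integers -/
theorem quot (h : VR R φ) [hp : Fact p.Prime] [CharP F p] (k s : ℕ) (i : ℕ) (hi : i ≠ 0)
    (hi' : ¬ p ^ (k + 1) ∣ i) (hs : s ≤ k) (hi2 : s = 0 ∨ ¬ p ^ (k + 1 - s) ∣ i) :
    ∃ y : R, ((p : ℂ) ^ k / i) = (p : ℂ) ^ s * y := by
  obtain ⟨α, u, hu, rfl⟩ := Nat.exists_eq_pow_mul_and_not_dvd hi p hp.out.ne_one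
  have hα : α + s ≤ k := by
    by_contra hcon
    push Not at hcon
    rcases hi2 with h0 | h0
    · subst h0
      exact hi' (Dvd.dvd.mul_right (pow_dvd_pow p (by omega)) u)
    · exact h0 (Dvd.dvd.mul_right (pow_dvd_pow p (by omega)) u)
  obtain ⟨y, hy⟩ := h.int_unit (p := p) (u : ℤ) (by exact_mod_cast hu)
  refine ⟨(p : R) ^ (k - s - α) * y, ?_⟩
  have hyC : (u : ℂ) * y = 1 := by
    have := congrArg (fun z : R => (z : ℂ)) hy
    push_cast at this
    exact this
  have hu0 : (u : ℂ) ≠ 0 := by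
    intro h0
    rw [h0, zero_mul] at hyC
    exact zero_ne_one hyC
  have hp0 : (p : ℂ) ≠ 0 := by exact_mod_cast hp.out.ne_zero
  have e1 : (p : ℂ) ^ k = (p : ℂ) ^ s * (p : ℂ) ^ (k - s - α) * (p : ℂ) ^ α := by
    rw [← pow_add, ← pow_add]
    congr 1
    omega
  have e2 : (y : ℂ) = 1 / u := by
    rw [eq_div_iff hu0]
    linear_combination hyC
  push_cast
  rw [e1, e2]
  field_simp

end VR

end Pool.Agent.Q42.PP
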