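import Mathlib
import Pool.Agent.Q42.PP.Val

/-!
# Existence of the valuation rings; ramification
-/

set_option autoImplicit false
set_option linter.unusedSectionVars false

namespace Pool.Agent.Q42.PP

open Finset Polynomial

theorem exists_VR (p : ℕ) (hp : p.Prime) : ∃ (R : Subring ℂ) (F : Type) (_ : Field F) (φ : R →+* F)
    (_ : CharP F p), VR R φ ∧ ∀ x : ℂ, IsIntegral ℤ x → x ∈ R := by
  set A : Subring ℂ := (Int.castRingHom ℂ).range with hA
  have hpA : ((p : ℕ) : ℂ) ∈ A := ⟨p, by simp⟩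
  set I : Ideal A := Ideal.span {⟨(p : ℂ), hpA⟩} with hI
  have hne : I ≠ ⊤ := by
    intro h
    rw [hI, Ideal.span_singleton_eq_top] at h
    obtain ⟨u, hu⟩ := h.exists_right_inv
    obtain ⟨z, hz⟩ := u.2
    have h1 := congrArg (fun a : A => (a : ℂ)) hu
    push_cast at h1
    rw [← hz, eq_intCast] at h1
    have h2 : (p : ℤ) * z = 1 := by exact_mod_cast h1
    have h3 : (p : ℤ) ∣ 1 := ⟨z, h2.symm⟩
    have h4 : p ∣ 1 := by exact_mod_cast h3
    exact hp.one_lt.ne' (Nat.dvd_one.1 h4)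
  obtain ⟨B, -, hB⟩ := I.image_subset_nonunits_valuationSubring hne
  have hpB : (p : ℂ) ∈ B.nonunits :=
    hB ⟨⟨(p : ℂ), hpA⟩, Ideal.mem_span_singleton_self _, rfl⟩
  have h0 : ((p : ℕ) : IsLocalRing.ResidueField B) = 0 := by
    rw [← map_natCast (IsLocalRing.residue B), IsLocalRing.residue_eq_zero_iff]
    rw [ValuationSubring.mem_nonunits_iff_exists_mem_maximalIdeal] at hpB
    obtain ⟨h1, h2⟩ := hpB
    have : (⟨(p : ℂ), h1⟩ : B) = ((p : ℕ) : B) := by
      apply Subtype.ext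
      push_cast
      rfl
    rwa [this] at h2
  refine ⟨B.toSubring, IsLocalRing.ResidueField B, inferInstance, IsLocalRing.residue B,
    ringChar.of_eq (CharP.ringChar_of_prime_eq_zero hp h0), ⟨fun x => B.mem_or_inv_mem x, ?_⟩, ?_⟩
  · intro x hx
    have hx' : (IsLocalRing.residue B) x ≠ 0 := hx
    rw [IsLocalRing.residue_ne_zero_iff_isUnit] at hx'
    obtain ⟨y, hy⟩ := hx'.exists_right_inv
    have h1 := congrArg (fun a : B => (a : ℂ)) hy
    have h2 : (x : ℂ) * y = 1 := h1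
    have h3 : (x : ℂ)⁻¹ = y := inv_eq_of_mul_eq_one_right h2
    rw [h3]
    exact y.2
  · intro x hx
    have h1 : IsIntegral B x := hx.tower_top
    obtain ⟨y, hy⟩ := IsIntegrallyClosed.algebraMap_eq_of_integral h1
    rw [← hy]
    exact y.2

namespace VR

variable {R : Subring ℂ} {F : Type} [Field F] {φ : R →+* F} {p : ℕ}

/-- bounded ramification -/
theorem ram (h : VR R φ) [hp : Fact p.Prime] [CharP F p] (ε ϖ : R) (hε : φ ε = 0) (hϖ : φ ϖ = 0)
    (hprod : ε * ϖ = p) (r : ℕ) (G : ℤ[X]) (hG : G ≠ 0) (hdeg : G.natDegree ≤ r)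
    (hroot : aeval (ε : ℂ) G = 0) : ∃ y : R, ϖ ^ r = p * y := by
  classical
  have hp0 : (p : R) ≠ 0 := by
    intro h0
    have := congrArg (fun z : R => (z : ℂ)) h0
    push_cast at this
    exact hp.out.ne_zero (by exact_mod_cast this)
  have hε0 : ε ≠ 0 := by
    rintro rfl
    rw [zero_mul] at hprod
    exact hp0 hprod.symm
  -- the terms
  set T : ℕ → R := fun l => (G.coeff l : R) * ε ^ l with hT
  set s : Finset ℕ := (range (r + 1)).filter (fun l => G.coeff l ≠ 0) with hs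
  have hsne : s.Nonempty := by
    refine ⟨G.natDegree, ?_⟩
    rw [hs, mem_filter, mem_range]
    exact ⟨by omega, by rwa [coeff_natDegree, Ne, leadingCoeff_eq_zero]⟩
  have hsum : ∑ l ∈ s, T l = 0 := by
    apply Subtype.ext
    push_cast
    rw [← hroot, aeval_eq_sum_range' (Nat.lt_succ_of_le hdeg)]
    rw [hs, sum_filter]
    refine sum_congr rfl fun l _ => ?_
    rw [zsmul_eq_mul]
    split_ifs with h1
    · rw [hT]
      push_cast
      rfl
    · push Not at h1
      rw [h1]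
      simp
  obtain ⟨l0, hl0, hmin⟩ := h.exists_min s hsne T
  have hT0 : ∀ l ∈ s, T l ≠ 0 := by
    intro l hl
    rw [hs, mem_filter] at hl
    refine mul_ne_zero ?_ (pow_ne_zero _ hε0)
    intro h0
    apply hl.2
    have := congrArg (fun z : R => (z : ℂ)) h0
    push_cast at this
    exact_mod_cast this
  choose! y hy using hmin
  have h1 : ∑ l ∈ s, y l = 0 := by
    apply mul_left_cancel₀ (hT0 l0 hl0)
    rw [mul_sum, mul_zero, ← hsum]
    exact sum_congr rfl fun l hl => (hy l hl).symm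
  have hy0 : y l0 = 1 := by
    apply mul_left_cancel₀ (hT0 l0 hl0)
    rw [← hy l0 hl0, mul_one]
  obtain ⟨l1, hl1, hne, hl1u⟩ : ∃ l1 ∈ s, l1 ≠ l0 ∧ φ (y l1) ≠ 0 := by
    by_contra hcon
    push Not at hcon
    have h2 := congrArg φ h1
    rw [map_sum, map_zero, sum_eq_single l0 (fun l hl hll => hcon l hl hll)
      (fun hh => absurd hl0 hh), hy0, map_one] at h2
    exact one_ne_zero h2
  obtain ⟨y1, hy1⟩ := h.unit _ hl1u
  -- the symmetric statement
  have key : ∀ a b : ℕ, a < b → b ≤ r → ∀ u w : R, u * w = 1 → ∀ ga gb : ℤ, ga ≠ 0 → gb ≠ 0 →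
      (gb : R) * ε ^ b = (ga : R) * ε ^ a * u → ∃ y : R, ϖ ^ r = p * y := by
    intro a b hab hbr u w huw ga gb hga hgb heq
    have hpi : (p : ℤ).natAbs ≠ 1 := by
      rw [Int.natAbs_natCast]
      exact hp.out.ne_one
    obtain ⟨α, ua, hua, hga'⟩ := (Int.finiteMultiplicity_iff.2 ⟨hpi, hga⟩).exists_eq_pow_mul_and_not_dvd
      |> fun ⟨c, hc1, hc2⟩ => (⟨_, c, hc2, hc1⟩ : ∃ (α : ℕ) (ua : ℤ), ¬ (p : ℤ) ∣ ua ∧ ga = (p : ℤ) ^ α * ua)
    obtain ⟨β, ub, hub, hgb'⟩ := (Int.finiteMultiplicity_iff.2 ⟨hpi, hgb⟩).exists_eq_pow_mul_and_not_dvd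
      |> fun ⟨c, hc1, hc2⟩ => (⟨_, c, hc2, hc1⟩ : ∃ (β : ℕ) (ub : ℤ), ¬ (p : ℤ) ∣ ub ∧ gb = (p : ℤ) ^ β * ub)
    obtain ⟨za, hza⟩ := h.int_unit (p := p) ua hua
    obtain ⟨zb, hzb⟩ := h.int_unit (p := p) ub hub
    -- `p ^ β ε ^ j = p ^ α v`, `v` a unit
    have h2 : (p : R) ^ β * ε ^ (b - a) = (p : R) ^ α * (ua * zb * u) := by
      apply mul_left_cancel₀ (pow_ne_zero a hε0)
      have e1 : ε ^ b = ε ^ a * ε ^ (b - a) := by
        rw [← pow_add]
        congr 1
        omega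
      rw [hga', hgb'] at heq
      push_cast at heq
      rw [e1] at heq
      linear_combination zb * heq - ((p : R) ^ β * ε ^ a * ε ^ (b - a)) * hzb
    have hv : (ua * zb * u) * (za * ub * w) = (1 : R) := by
      linear_combination (u * w * (ub * zb)) * hza + (u * w) * hzb + huw
    obtain ⟨v, hvdef⟩ : ∃ v : R, v = ua * zb * u := ⟨_, rfl⟩
    obtain ⟨v', hvdef'⟩ : ∃ v' : R, v' = za * ub * w := ⟨_, rfl⟩
    rw [← hvdef] at h2 hv
    rw [← hvdef'] at hv
    obtain ⟨j, hj⟩ : ∃ j : ℕ, j = b - a := ⟨_, rfl⟩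
    rw [← hj] at h2
    have hj1 : 1 ≤ j := by omega
    have hjr : j ≤ r := by omega
    have hβα : β < α := by
      by_contra hcon
      push Not at hcon
      have h3 : (p : R) ^ (β - α) * ε ^ j = v := by
        apply mul_left_cancel₀ (pow_ne_zero α hp0)
        rw [← mul_assoc, ← pow_add, show α + (β - α) = β by omega]
        exact h2
      have h4 : (p : R) ^ (β - α) * ε ^ j * v' = 1 := by rw [h3, hv]
      refine nonunit (φ := φ) ε ((p : R) ^ (β - α) * ε ^ (j - 1) * v') hε ?_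
      have h5 : ε ^ j = ε ^ (j - 1) * ε := by rw [← pow_succ]; congr 1; omega
      rw [h5] at h4
      linear_combination h4
    obtain ⟨s', hs'⟩ : ∃ s' : ℕ, s' = α - β := ⟨_, rfl⟩
    have h3 : ε ^ j = (p : R) ^ s' * v := by
      apply mul_left_cancel₀ (pow_ne_zero β hp0)
      rw [h2, ← mul_assoc, ← pow_add, hs', show β + (α - β) = α by omega]
    have h4 : (p : R) ^ j = (p : R) ^ s' * v * ϖ ^ j := by
      rw [← h3, ← mul_pow, hprod]
    have hsj : s' < j := by
      by_contra hcon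
      push Not at hcon
      have h5 : (1 : R) = (p : R) ^ (s' - j) * v * ϖ ^ j := by
        apply mul_left_cancel₀ (pow_ne_zero j hp0)
        rw [mul_one, ← mul_assoc, ← mul_assoc, ← pow_add, show j + (s' - j) = s' by omega]
        exact h4
      refine nonunit (φ := φ) ϖ ((p : R) ^ (s' - j) * v * ϖ ^ (j - 1)) hϖ ?_
      have h6 : ϖ ^ j = ϖ ^ (j - 1) * ϖ := by rw [← pow_succ]; congr 1; omega
      rw [h6] at h5
      linear_combination -h5
    have h5 : (p : R) ^ (j - s') = v * ϖ ^ j := by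
      apply mul_left_cancel₀ (pow_ne_zero s' hp0)
      rw [← pow_add, show s' + (j - s') = j by omega, h4]
      ring
    refine ⟨(p : R) ^ (j - s' - 1) * v' * ϖ ^ (r - j), ?_⟩
    have h6 : ϖ ^ r = ϖ ^ j * ϖ ^ (r - j) := by rw [← pow_add]; congr 1; omega
    have h7 : (p : R) ^ (j - s') = (p : R) ^ (j - s' - 1) * p := by
      rw [← pow_succ]; congr 1; omega
    rw [h7] at h5
    rw [h6]
    linear_combination (-(ϖ ^ j) * ϖ ^ (r - j)) * hv - (v' * ϖ ^ (r - j)) * h5
  have hl0' := (mem_filter.1 hl0)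
  have hl1' := (mem_filter.1 hl1)
  rw [mem_range] at hl0' hl1'
  rcases lt_or_gt_of_ne hne with hlt | hlt
  · refine key l1 l0 hlt (by omega) y1 (y l1) (by rw [mul_comm]; exact hy1) _ _ hl1'.2 hl0'.2 ?_
    have := hy l1 hl1
    rw [hT] at this
    dsimp only at this
    rw [this]
    linear_combination (-(G.coeff l0 : R) * ε ^ l0) * hy1
  · refine key l0 l1 hlt (by omega) (y l1) y1 hy1 _ _ hl0'.2 hl1'.2 ?_
    exact hy l1 hl1

end VR

end Pool.Agent.Q42.PP
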