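import Mathlib
import Pool.Agent.Q42.PP.Main
import Pool.Agent.Q42.PP.Val2

/-!
# The contradiction
-/

set_option autoImplicit false
set_option linter.unusedSectionVars false

namespace Pool.Agent.Q42.PP

open Finset Polynomial Pool.Agent.Q49.RB

/-- a window without multiples of `p` -/
theorem window (p L A0 : ℕ) (hp : L < p) : ∃ A, A0 ≤ A ∧ A ≤ A0 + L ∧
    ∀ x, A < x → x ≤ A + L → ¬ p ∣ x := by
  by_cases h : ∃ x, A0 < x ∧ x ≤ A0 + L ∧ p ∣ x
  · obtain ⟨x, h1, h2, y, rfl⟩ := h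
    refine ⟨p * y, h1.le, h2, fun z hz1 hz2 hz => ?_⟩
    obtain ⟨w, rfl⟩ := hz
    have h3 : y < w := lt_of_mul_lt_mul_left hz1 (Nat.zero_le p)
    have h4 : p * (y + 1) ≤ p * w := Nat.mul_le_mul_left p h3
    rw [mul_add, mul_one] at h4
    omega
  · push Not at h
    exact ⟨A0, le_rfl, by omega, fun x h1 h2 => h x h1 h2⟩

section

variable {R : Subring ℂ} {F : Type} [Field F] {φ : R →+* F} {p r : ℕ}

theorem no_U (h : VR R φ) [hp : Fact p.Prime] [CharP F p] (hp2 : p ≠ 2) (k n : ℕ) (π ϖ : R)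
    (hπ : π * ϖ = p) (hϖ : φ ϖ = 0) (a : Fin r → ℕ) (t : Fin r → R)
    (hnf : ∀ i, tau p (φ π ^ (p - 1)) (φ (t i)) ≠ 0 ∨
      (φ (t i) = 0 ∧ (a i = 0 ∨ ¬ p ^ (k + 1) ∣ a i)))
    (i0 : Fin r) (hi0 : tau p (φ π ^ (p - 1)) (φ (t i0)) ≠ 0)
    (hI : Integral n (fun S : Finset (Fin r) => (-1 : ℤ) ^ S.card)
      (fun S => ∑ i ∈ S, ((a i : ℂ) + ((p ^ k : ℕ) : ℂ) * (π * t i))))
    (c : ℤ) (hc : ∏ i, ((a i : ℂ) + ((p ^ k : ℕ) : ℂ) * (π * t i)) = c) (vv : ℕ)
    (hram : ∃ y : R, ϖ ^ r = p * y)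
    (hgood : (r < p ∧ ¬ (p : ℤ) ∣ c ∧ r * (p * p ^ k) ≤ n) ∨
      (2 ^ r + r < p ∧ ¬ (p : ℤ) ^ (vv + 1) ∣ c ∧
        (r * (vv + 1) + 2 ^ (r + 1) + 2 * r + 1) * (p * p ^ k) ≤ n)) : False := by
  classical
  obtain ⟨q, hq⟩ : ∃ q : ℕ, q = p ^ k := ⟨_, rfl⟩
  have hq0 : 0 < q := by rw [hq]; exact pow_pos hp.out.pos k
  obtain ⟨m, hm⟩ : ∃ m : ℕ, q = m + 1 := ⟨q - 1, by omega⟩
  have hmeven : Even m := by
    have h1 : Odd q := by rw [hq]; exact (hp.out.odd_of_ne_two hp2).pow
    rw [hm] at h1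
    obtain ⟨l, hl⟩ := h1
    exact ⟨l, by omega⟩
  rw [← hq] at hI hc hgood
  have hrp : r < p := by
    rcases hgood with h1 | h1
    · exact h1.1
    · have := h1.1
      have := Nat.one_le_two_pow (n := r)
      omega
  -- the quotients
  have he : ∀ i : ℕ, ∃ y : R, 1 ≤ i → i < p * q → (y : ℂ) = q / i := by
    intro i
    by_cases hi : 1 ≤ i ∧ i < p * q
    · obtain ⟨y, hy⟩ := h.quot (p := p) k 0 i (by omega) (fun hd => by
        have := Nat.le_of_dvd (by omega) hd
        rw [pow_succ', ← hq] at this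
        omega) (Nat.zero_le _) (Or.inl rfl)
      refine ⟨y, fun _ _ => ?_⟩
      rw [pow_zero, one_mul] at hy
      rw [← hy, hq]
      push_cast
      rfl
    · exact ⟨0, fun h1 h2 => absurd ⟨h1, h2⟩ hi⟩
  choose e he using he
  have hf : ∀ i : ℕ, ∃ y : R, 1 ≤ i → i ≤ m → e i = p * y := by
    intro i
    by_cases hi : 1 ≤ i ∧ i ≤ m
    · have hk : 1 ≤ k := by
        by_contra hk
        have : k = 0 := by omega
        rw [this, pow_zero] at hq
        omega
      have hpq : q ≤ p * q := Nat.le_mul_of_pos_left _ hp.out.pos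
      obtain ⟨y, hy⟩ := h.quot (p := p) k 1 i (by omega) (fun hd => by
        have := Nat.le_of_dvd (by omega) hd
        rw [pow_succ', ← hq] at this
        omega) hk (Or.inr fun hd => by
        have := Nat.le_of_dvd (by omega) hd
        rw [show k + 1 - 1 = k by omega, ← hq] at this
        omega)
      refine ⟨y, fun _ _ => ?_⟩
      apply Subtype.ext
      rw [he i hi.1 (by omega), hq]
      push_cast
      rw [hy, pow_one]
    · exact ⟨0, fun h1 h2 => absurd ⟨h1, h2⟩ hi⟩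
  choose f hf using hf
  -- the three groups
  set ρ : F := φ π ^ (p - 1) with hρ
  set U : Finset (Fin r) := univ.filter (fun i => tau p ρ (φ (t i)) ≠ 0) with hU
  set W : Finset (Fin r) := univ.filter (fun i => tau p ρ (φ (t i)) = 0 ∧ a i = 0) with hW
  set W' : Finset (Fin r) := univ.filter (fun i => tau p ρ (φ (t i)) = 0 ∧ a i ≠ 0) with hW'
  have hUW : Disjoint U W := by
    rw [Finset.disjoint_left]
    intro i h1 h2
    exact (mem_filter.1 h1).2 (mem_filter.1 h2).2.1
  have hUW' : Disjoint U W' := by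
    rw [Finset.disjoint_left]
    intro i h1 h2
    exact (mem_filter.1 h1).2 (mem_filter.1 h2).2.1
  have hWW' : Disjoint W W' := by
    rw [Finset.disjoint_left]
    intro i h1 h2
    exact (mem_filter.1 h2).2.2 (mem_filter.1 h1).2.2
  have hall : ∀ i, i ∈ U ∪ W ∪ W' := by
    intro i
    simp only [mem_union, hU, hW, hW', mem_filter, mem_univ, true_and]
    tauto
  have ht0 : ∀ i, tau p ρ (φ (t i)) = 0 → φ (t i) = 0 ∧ (a i = 0 ∨ ¬ p ^ (k + 1) ∣ a i) := by
    intro i hi
    rcases hnf i with h1 | h1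
    · exact absurd hi h1
    · exact h1
  have hdec : ∀ i, ∃ v α : ℕ, i ∈ W' → a i = p ^ v * α ∧ ¬ p ∣ α ∧ v ≤ k := by
    intro i
    by_cases hi : i ∈ W'
    · have h1 := (mem_filter.1 hi).2
      obtain ⟨v, α, hα, hv⟩ := Nat.exists_eq_pow_mul_and_not_dvd h1.2 p hp.out.ne_one
      refine ⟨v, α, fun _ => ⟨hv, hα, ?_⟩⟩
      by_contra hcon
      push Not at hcon
      rcases (ht0 i h1.1).2 with h2 | h2
      · exact h1.2 h2
      · exact h2 (by rw [hv]; exact Dvd.dvd.mul_right (pow_dvd_pow p hcon) α)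
    · exact ⟨0, 0, fun h1 => absurd h1 hi⟩
  choose v α hvα using hdec
  have hcard : U.card + W.card + W'.card = r := by
    have h1 : (U ∪ W ∪ W') = univ := eq_univ_iff_forall.2 hall
    have h2 : Disjoint (U ∪ W) W' := by
      rw [disjoint_union_left]
      exact ⟨hUW', hWW'⟩
    rw [← card_union_of_disjoint hUW, ← card_union_of_disjoint h2, h1, card_univ, Fintype.card_fin]
  obtain ⟨N, hN⟩ : ∃ N : ℕ, N = ∑ i ∈ W', p ^ v i := ⟨_, rfl⟩
  have hNle : N ≤ W'.card * q := by
    rw [hN]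
    refine (sum_le_card_nsmul _ _ q fun i hi => ?_).trans (by rw [smul_eq_mul])
    rw [hq]
    exact Nat.pow_le_pow_right hp.out.pos (hvα i hi).2.2
  have hNq : N < p * q := by
    refine hNle.trans_lt ?_
    exact Nat.mul_lt_mul_of_pos_right (by omega) hq0
  have hUne : U.Nonempty := ⟨i0, by rw [hU, mem_filter]; exact ⟨mem_univ _, hi0⟩⟩
  have hUpos : 0 < U.card := card_pos.2 hUne
  have hfac : ((U.card.factorial : ℕ) : F) ≠ 0 := by
    rw [Ne, CharP.cast_eq_zero_iff F p, hp.out.dvd_factorial]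
    omega
  have hmain := fun (M : ℕ) (hM : (M.descFactorial W.card : F) ≠ 0)
      (hMU : alt U (fun i => tau p ρ (φ (t i))) (fun y => y ^ (M - W.card)) 0 ≠ 0)
      (hMn : M * (p * q) + N ≤ n) =>
    main_identity φ p q m hm hmeven n e f (fun i h1 h2 => he i h1 h2) (fun i h1 h2 => hf i h1 h2)
      π ϖ hπ hϖ a v α t U W W' hUW hUW' hWW' hall
      (fun i hi => ⟨(mem_filter.1 hi).2.2, (ht0 i (mem_filter.1 hi).2.1).1⟩)
      (fun i hi => ⟨(ht0 i (mem_filter.1 hi).2.1).1, (hvα i hi).1, by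
        rw [Ne, CharP.cast_eq_zero_iff F p]
        exact (hvα i hi).2.1⟩) N M hN hNq hM hMU hMn hI
  -- the degree
  have hcR : (c : R) = (∏ i ∈ U ∪ W', ((a i : R) + (q : R) * (π * t i))) *
      (((q : R) * π) ^ W.card * ∏ i ∈ W, t i) := by
    apply Subtype.ext
    push_cast
    rw [← hc]
    have h1 : (univ : Finset (Fin r)) = (U ∪ W') ∪ W := by
      rw [← eq_univ_iff_forall.2 hall]
      ext i
      simp only [mem_union]
      tauto
    have h2 : Disjoint (U ∪ W') W := by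
      rw [disjoint_union_left]
      exact ⟨hUW, hWW'.symm⟩
    rw [h1, prod_union h2]
    congr 1
    rw [← prod_const, ← prod_mul_distrib]
    refine prod_congr rfl fun i hi => ?_
    rw [(mem_filter.1 hi).2.2]
    push_cast
    ring
  rcases hgood with ⟨h1, h2, h3⟩ | ⟨h1, h2, h3⟩
  · -- `p` does not divide the degree
    have hWe : W = ∅ := by
      by_contra hne
      obtain ⟨i, hi⟩ := nonempty_iff_ne_empty.2 hne
      apply h2
      rw [← CharP.intCast_eq_zero_iff F p, ← map_intCast φ, hcR, map_mul, map_mul, map_prod,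
        map_prod, prod_eq_zero hi (ht0 i (mem_filter.1 hi).2.1).1]
      ring
    have hWc : W.card = 0 := by rw [hWe, card_empty]
    obtain ⟨E, Y, hY, hE⟩ := hmain U.card (by rw [hWc]; simp) (by
      rw [hWc, Nat.sub_zero, alt_pow_card]
      refine mul_ne_zero (mul_ne_zero (pow_ne_zero _ (neg_ne_zero.2 one_ne_zero)) hfac) ?_
      rw [prod_ne_zero_iff]
      intro i hi
      exact (mem_filter.1 hi).2) (by
      have h4 : W'.card * q ≤ W'.card * (p * q) :=
        Nat.mul_le_mul_left _ (Nat.le_mul_of_pos_left _ hp.out.pos)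
      have h5 : U.card * (p * q) + W'.card * (p * q) = r * (p * q) := by
        rw [← add_mul]
        congr 1
        omega
      omega)
    apply hY
    have h6 := congrArg φ hE
    rw [hWe, card_empty, prod_empty, pow_zero, one_mul, one_mul, map_mul, map_pow, hϖ,
      zero_pow hUpos.ne', zero_mul] at h6
    exact h6.symm
  · -- the general case
    obtain ⟨A, hA1, hA2, hA3⟩ := window p (2 ^ r + r) (r * (vv + 1)) h1
    obtain ⟨M', hM1, hM2, hM3⟩ := exists_power U hUne (fun i => tau p ρ (φ (t i)))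
      (fun i hi => (mem_filter.1 hi).2) hfac A
    have h2r : 2 ^ U.card ≤ 2 ^ r := Nat.pow_le_pow_right (by norm_num) (by omega)
    obtain ⟨E, Y, hY, hE⟩ := hmain (M' + W.card) (by
      rw [Ne, CharP.cast_eq_zero_iff F p, Nat.descFactorial_eq_prod_range]
      intro hd
      obtain ⟨j, hj, hjd⟩ := (Nat.Prime.prime hp.out).exists_mem_finset_dvd hd
      rw [mem_range] at hj
      exact hA3 (M' + W.card - j) (by omega) (by omega) hjd) (by
      rw [Nat.add_sub_cancel]
      exact hM3) (by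
      have h4 : (M' + W.card) * (p * q) + N ≤ (M' + W.card + 1) * (p * q) := by
        rw [add_mul (M' + W.card) 1, one_mul]
        omega
      refine h4.trans (le_trans (Nat.mul_le_mul_right _ ?_) h3)
      have : 2 ^ (r + 1) = 2 * 2 ^ r := by rw [pow_succ]; ring
      omega)
    obtain ⟨Y', hY'⟩ := h.unit Y hY
    obtain ⟨y, hy⟩ := hram
    apply h2
    -- `p ^ (vv + 1)` divides `c`
    have h5 : ∏ i ∈ W, t i = ϖ ^ (M' + W.card) * ((-1) ^ W.card * E * Y') := by
      have h6 : ((-1 : R) ^ W.card) * (-1) ^ W.card = 1 := by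
        rw [← mul_pow]
        simp
      linear_combination (-(-1) ^ W.card * Y') * hE - (∏ i ∈ W, t i) * h6 -
        (((-1) ^ W.card * (-1) ^ W.card) * ∏ i ∈ W, t i) * hY'
    have h7 : ϖ ^ (M' + W.card) = (p : R) ^ (vv + 1) *
        (y ^ (vv + 1) * ϖ ^ (M' + W.card - r * (vv + 1))) := by
      have e1 : M' + W.card = r * (vv + 1) + (M' + W.card - r * (vv + 1)) := by omega
      conv_lhs => rw [e1]
      rw [pow_add, pow_mul, hy, mul_pow]
      ring
    refine h.int_dvd c (vv + 1) ((∏ i ∈ U ∪ W', ((a i : R) + (q : R) * (π * t i))) *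
      (((q : R) * π) ^ W.card * ((y ^ (vv + 1) * ϖ ^ (M' + W.card - r * (vv + 1))) *
        ((-1) ^ W.card * E * Y')))) ?_
    rw [hcR, h5, h7]
    ring

end

end Pool.Agent.Q42.PP
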