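import Mathlib
import Pool.Agent.Q42.PP.Core
import Pool.Agent.Q42.SM.Core

/-!
# The law at the powers of a prime
-/

set_option autoImplicit false
set_option linter.unusedSectionVars false

namespace Pool.Agent.Q42.PP

open Finset Polynomial Pool.Agent.Q49.RB

/-- the condition on the prime power `p ^ k`, where `c` is the product of the roots -/
def Good (r n p k vv : ℕ) (c : ℤ) : Prop :=
  (r < p ∧ ¬ (p : ℤ) ∣ c ∧ r * p ^ k ≤ n) ∨
    (2 ^ r + r < p ∧ ¬ (p : ℤ) ^ (vv + 1) ∣ c ∧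
      (r * (vv + 1) + 2 ^ (r + 1) + 2 * r + 1) * p ^ k ≤ n)

theorem Good.pred {r n p k vv : ℕ} {c : ℤ} (hp : 0 < p) (h : Good r n p (k + 1) vv c) :
    Good r n p k vv c := by
  have h0 : p ^ k ≤ p ^ (k + 1) := Nat.pow_le_pow_right hp (by omega)
  rcases h with ⟨h1, h2, h3⟩ | ⟨h1, h2, h3⟩
  · exact Or.inl ⟨h1, h2, (Nat.mul_le_mul_left _ h0).trans h3⟩
  · exact Or.inr ⟨h1, h2, (Nat.mul_le_mul_left _ h0).trans h3⟩

section

variable {R : Subring ℂ} {F : Type} [Field F] {φ : R →+* F} {p r : ℕ}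

theorem normalize [hp : Fact p.Prime] (k : ℕ) (π ϖ : R) (hπ : π * ϖ = p) (hϖ : φ ϖ = 0)
    (A : ℕ) (T : R) (hT : φ T = 0) : ∃ (a : ℕ) (t : R),
      (A : ℂ) + ((p ^ k : ℕ) : ℂ) * (π * T) = a + ((p ^ k : ℕ) : ℂ) * (π * t) ∧ φ t = 0 ∧
        (a = 0 ∨ ¬ p ^ (k + 1) ∣ a) := by
  by_cases hd : p ^ (k + 1) ∣ A
  · obtain ⟨m, rfl⟩ := hd
    refine ⟨0, T + ϖ * m, ?_, ?_, Or.inl rfl⟩
    · have h1 : (π : ℂ) * ϖ = p := by
        have := congrArg (fun z : R => (z : ℂ)) hπ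
        push_cast at this
        exact this
      push_cast
      rw [pow_succ]
      linear_combination (-(p : ℂ) ^ k * m) * h1
    · rw [map_add, map_mul, hT, hϖ, zero_mul, add_zero]
  · exact ⟨A, T, rfl, hT, Or.inr hd⟩

theorem law_step (h : VR R φ) [hp : Fact p.Prime] [CharP F p] (hp2 : p ≠ 2) (k n vv : ℕ)
    (η : Fin r → ℂ)
    (hI : Integral n (fun S : Finset (Fin r) => (-1 : ℤ) ^ S.card) (fun S => ∑ i ∈ S, η i))
    (c : ℤ) (hc : ∏ i, η i = c) (G : ℤ[X]) (hG : G ≠ 0) (hdeg : G.natDegree ≤ r)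
    (hroot : ∀ i, aeval (η i) G = 0) (hgood : Good r n p (k + 1) vv c)
    (hrep : ∀ i, ∃ (a : ℕ) (z : R), η i = a + ((p ^ k : ℕ) : ℂ) * z) (i : Fin r) :
    ∃ (a : ℕ) (z : R), η i = a + ((p ^ (k + 1) : ℕ) : ℂ) * z := by
  classical
  have hr : 1 ≤ r := by
    have := i.2
    omega
  have hpF : (p : F) = 0 := CharP.cast_eq_zero F p
  have hgood' : (r < p ∧ ¬ (p : ℤ) ∣ c ∧ r * (p * p ^ k) ≤ n) ∨
      (2 ^ r + r < p ∧ ¬ (p : ℤ) ^ (vv + 1) ∣ c ∧
        (r * (vv + 1) + 2 ^ (r + 1) + 2 * r + 1) * (p * p ^ k) ≤ n) := by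
    unfold Good at hgood
    rw [pow_succ' p k] at hgood
    exact hgood
  choose a z haz using hrep
  -- first step
  have hA : ∀ j, φ (z j) ^ p = φ (z j) := by
    by_contra hcon
    push Not at hcon
    obtain ⟨i0, hi0⟩ := hcon
    have hρ : φ (1 : R) ^ (p - 1) = 1 := by rw [map_one, one_pow]
    have hnf : ∀ j, ∃ (a' : ℕ) (t' : R), η j = a' + ((p ^ k : ℕ) : ℂ) * ((1 : R) * t') ∧
        (tau p (φ (1 : R) ^ (p - 1)) (φ t') ≠ 0 ∨ (φ t' = 0 ∧ (a' = 0 ∨ ¬ p ^ (k + 1) ∣ a'))) ∧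
        (φ (z j) ^ p ≠ φ (z j) → tau p (φ (1 : R) ^ (p - 1)) (φ t') ≠ 0) := by
      intro j
      by_cases hj : φ (z j) ^ p = φ (z j)
      · let _ : Algebra (ZMod p) F := ZMod.algebra F p
        obtain ⟨b, hb⟩ := Pool.Agent.Q42.SM.frob_fixed (p := p) _ hj
        have hb' : φ (z j) = ((b.val : ℕ) : F) := by
          rw [hb, Algebra.smul_def, mul_one]
          conv_lhs => rw [← ZMod.natCast_zmod_val b]
          rw [map_natCast]
        obtain ⟨a', t', h1, h2, h3⟩ := normalize (φ := φ) (p := p) k (1 : R) (p : R) (one_mul _)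
          (by rw [map_natCast]; exact hpF) (a j + p ^ k * b.val) (z j - (b.val : ℕ))
          (by rw [map_sub, map_natCast, hb', sub_self])
        refine ⟨a', t', ?_, Or.inr ⟨h2, h3⟩, fun h4 => absurd hj h4⟩
        rw [← h1, haz j]
        push_cast
        ring
      · have h4 : tau p (φ (1 : R) ^ (p - 1)) (φ (z j)) ≠ 0 := by
          rw [hρ, tau_apply, one_mul, sub_ne_zero]
          exact hj
        refine ⟨a j, z j, ?_, Or.inl h4, fun _ => h4⟩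
        rw [haz j]
        push_cast
        ring
    choose a' t' h1 h2 h3 using hnf
    refine no_U h hp2 k n (1 : R) (p : R) (one_mul _) (by rw [map_natCast]; exact hpF) a' t' h2 i0
      (h3 i0 hi0) ?_ c ?_ vv ⟨(p : R) ^ (r - 1), ?_⟩ hgood'
    · have e : (fun S : Finset (Fin r) => ∑ i ∈ S, ((a' i : ℂ) + ((p ^ k : ℕ) : ℂ) *
          (((1 : R) : ℂ) * t' i))) = fun S => ∑ i ∈ S, η i := by
        funext S
        exact sum_congr rfl fun j _ => (h1 j).symm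
      rw [e]
      exact hI
    · rw [← hc]
      exact prod_congr rfl fun j _ => (h1 j).symm
    · rw [← pow_succ']
      congr 1
      omega
  have hB : ∀ j, ∃ b : ℕ, φ (z j) = (b : F) := by
    intro j
    let _ : Algebra (ZMod p) F := ZMod.algebra F p
    obtain ⟨b, hb⟩ := Pool.Agent.Q42.SM.frob_fixed (p := p) _ (hA j)
    refine ⟨b.val, ?_⟩
    rw [hb, Algebra.smul_def, mul_one]
    conv_lhs => rw [← ZMod.natCast_zmod_val b]
    rw [map_natCast]
  choose b hb using hB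
  obtain ⟨A, hAdef⟩ : ∃ A : Fin r → ℕ, A = fun j => a j + p ^ k * b j := ⟨_, rfl⟩
  obtain ⟨ε, hεdef⟩ : ∃ ε : Fin r → R, ε = fun j => z j - (b j : ℕ) := ⟨_, rfl⟩
  have hε : ∀ j, φ (ε j) = 0 := by
    intro j
    rw [hεdef]
    dsimp only
    rw [map_sub, map_natCast, hb, sub_self]
  have hηε : ∀ j, η j = A j + ((p ^ k : ℕ) : ℂ) * ε j := by
    intro j
    rw [haz j, hAdef, hεdef]
    push_cast
    ring
  by_cases hall : ∀ j, (p : R) ∣ ε j
  · obtain ⟨w, hw⟩ := hall i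
    refine ⟨A i, w, ?_⟩
    rw [hηε i, hw]
    push_cast
    rw [pow_succ]
    ring
  exfalso
  push Not at hall
  obtain ⟨i1, hi1⟩ := hall
  obtain ⟨i0, -, hmin⟩ := h.exists_min (univ : Finset (Fin r)) ⟨i, mem_univ i⟩ ε
  have hnd : ¬ (p : R) ∣ ε i0 := fun hd => hi1 (hd.trans (hmin i1 (mem_univ _)))
  have hε0 : ε i0 ≠ 0 := fun h0 => hnd (by rw [h0]; exact dvd_zero _)
  obtain ⟨ϖ, hϖ⟩ : ε i0 ∣ (p : R) := (h.dvd_total (p : R) (ε i0)).resolve_left hnd
  have hϖ0 : φ ϖ = 0 := by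
    by_contra hne
    obtain ⟨y, hy⟩ := h.unit _ hne
    exact hnd ⟨y, by rw [hϖ, mul_assoc, hy, mul_one]⟩
  have ht : ∀ j, ∃ t : R, ε j = ε i0 * t := fun j => hmin j (mem_univ j)
  choose t ht using ht
  have ht0 : t i0 = 1 := by
    apply mul_left_cancel₀ hε0
    rw [← ht i0, mul_one]
  have hρ : φ (ε i0) ^ (p - 1) = 0 := by
    rw [hε]
    exact zero_pow (by have := hp.out.one_lt; omega)
  have htau : ∀ x : F, tau p (φ (ε i0) ^ (p - 1)) x = -x := by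
    intro x
    rw [hρ, tau_apply, zero_mul, zero_sub]
  have hnf : ∀ j, ∃ (a' : ℕ) (t' : R), η j = a' + ((p ^ k : ℕ) : ℂ) * (ε i0 * t') ∧
      (tau p (φ (ε i0) ^ (p - 1)) (φ t') ≠ 0 ∨ (φ t' = 0 ∧ (a' = 0 ∨ ¬ p ^ (k + 1) ∣ a'))) ∧
      (φ (t j) ≠ 0 → tau p (φ (ε i0) ^ (p - 1)) (φ t') ≠ 0) := by
    intro j
    by_cases hj : φ (t j) = 0
    · obtain ⟨a', t', h1, h2, h3⟩ := normalize (φ := φ) (p := p) k (ε i0) ϖ hϖ.symm hϖ0 (A j) (t j) hj
      refine ⟨a', t', ?_, Or.inr ⟨h2, h3⟩, fun h4 => absurd hj h4⟩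
      rw [← h1, hηε j, ht j]
      push_cast
      ring
    · have h4 : tau p (φ (ε i0) ^ (p - 1)) (φ (t j)) ≠ 0 := by
        rw [htau]
        exact neg_ne_zero.2 hj
      refine ⟨A j, t j, ?_, Or.inl h4, fun _ => h4⟩
      rw [hηε j, ht j]
      push_cast
      ring
  choose a' t' h1 h2 h3 using hnf
  have hram : ∃ y : R, ϖ ^ r = p * y := by
    refine h.ram (ε i0) ϖ (hε i0) hϖ0 hϖ.symm r (G.comp (C (A i0 : ℤ) + C ((p : ℤ) ^ k) * X)) ?_ ?_ ?_
    · intro h0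
      rw [comp_eq_zero_iff] at h0
      rcases h0 with h0 | ⟨-, h0⟩
      · exact hG h0
      · have h5 := congrArg (fun P : ℤ[X] => P.coeff 1) h0
        simp only [coeff_add, coeff_C_mul, coeff_X_one, mul_one, coeff_C_succ, zero_add] at h5
        exact pow_ne_zero k (by exact_mod_cast hp.out.ne_zero : (p : ℤ) ≠ 0) h5
    · refine natDegree_comp_le.trans ?_
      have h5 : (C (A i0 : ℤ) + C ((p : ℤ) ^ k) * X : ℤ[X]).natDegree ≤ 1 := by
        refine (natDegree_add_le _ _).trans (max_le ?_ ?_)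
        · rw [natDegree_C]
          exact Nat.zero_le _
        · exact (natDegree_C_mul_le _ _).trans natDegree_X_le
      calc G.natDegree * (C (A i0 : ℤ) + C ((p : ℤ) ^ k) * X : ℤ[X]).natDegree ≤ r * 1 :=
            Nat.mul_le_mul hdeg h5
        _ = r := mul_one r
    · rw [aeval_comp]
      have h5 : aeval ((ε i0 : R) : ℂ) (C (A i0 : ℤ) + C ((p : ℤ) ^ k) * X : ℤ[X]) = η i0 := by
        rw [hηε i0]
        simp
      rw [h5]
      exact hroot i0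
  refine no_U h hp2 k n (ε i0) ϖ hϖ.symm hϖ0 a' t' h2 i0
    (h3 i0 (by rw [ht0, map_one]; exact one_ne_zero)) ?_ c ?_ vv hram hgood'
  · have e : (fun S : Finset (Fin r) => ∑ i ∈ S, ((a' i : ℂ) + ((p ^ k : ℕ) : ℂ) *
        ((ε i0 : ℂ) * t' i))) = fun S => ∑ i ∈ S, η i := by
      funext S
      exact sum_congr rfl fun j _ => (h1 j).symm
    rw [e]
    exact hI
  · rw [← hc]
    exact prod_congr rfl fun j _ => (h1 j).symm

/-- **The law at the powers of a prime.** -/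
theorem law (h : VR R φ) [hp : Fact p.Prime] [CharP F p] (hp2 : p ≠ 2) (k n vv : ℕ)
    (η : Fin r → ℂ) (hR : ∀ i, η i ∈ R)
    (hI : Integral n (fun S : Finset (Fin r) => (-1 : ℤ) ^ S.card) (fun S => ∑ i ∈ S, η i))
    (c : ℤ) (hc : ∏ i, η i = c) (G : ℤ[X]) (hG : G ≠ 0) (hdeg : G.natDegree ≤ r)
    (hroot : ∀ i, aeval (η i) G = 0) (hgood : Good r n p k vv c) :
    ∀ i, ∃ (a : ℕ) (z : R), η i = a + ((p ^ k : ℕ) : ℂ) * z := by
  induction k with
  | zero => exact fun i => ⟨0, ⟨η i, hR i⟩, by simp⟩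
  | succ k ih =>
    exact law_step h hp2 k n vv η hI c hc G hG hdeg hroot hgood (ih (hgood.pred hp.out.pos))

end

end Pool.Agent.Q42.PP
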