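import Mathlib
import Pool.Agent.Q42.PP.Law
import Pool.Agent.Q42.SM.Glue

/-!
# Numerically a complete intersection modulo the prime powers
-/

set_option autoImplicit false
set_option linter.unusedSectionVars false

namespace Pool.Agent.Q42.PP

open Finset Polynomial Pool.Agent.Q49.RB Pool.Agent.Q42.SM

variable {r : ℕ} {δ : Fin r → ℂ} {c : ℕ → ℤ}

/-- the integral polynomial with the roots `-δ_i` -/
theorem exists_poly (h : ∏ i, (1 + C (δ i) * X) = ∑ j ∈ range (r + 1), C ((c j : ℤ) : ℂ) * X ^ j) :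
    ∃ G : ℤ[X], G ≠ 0 ∧ G.natDegree ≤ r ∧ ∀ i, aeval (-δ i) G = 0 := by
  have hc0 := c_zero h
  refine ⟨∑ j ∈ range (r + 1), C (c j) * X ^ (r - j), ?_, ?_, ?_⟩
  · intro h0
    have h1 := congrArg (fun P : ℤ[X] => P.coeff r) h0
    simp only [finsetSum_coeff, coeff_C_mul, coeff_X_pow, coeff_zero] at h1
    rw [sum_eq_single 0] at h1
    · simp [hc0] at h1
    · intro j hj hj0
      rw [mem_range] at hj
      rw [if_neg (by omega), mul_zero]
    · intro h2
      exact absurd (mem_range.2 (Nat.succ_pos r)) h2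
  · refine natDegree_sum_le_of_forall_le _ _ fun j _ => ?_
    exact (natDegree_C_mul_le _ _).trans ((natDegree_X_pow_le _).trans (Nat.sub_le _ _))
  · intro i
    rw [map_sum]
    simp only [map_mul, map_pow, aeval_X, eq_intCast, map_intCast]
    by_cases hi : δ i = 0
    · rw [sum_eq_single r]
      · rw [Nat.sub_self, pow_zero, mul_one, ← prod_root h]
        exact prod_eq_zero (mem_univ i) hi
      · intro j hj hjr
        rw [mem_range] at hj
        rw [hi, neg_zero, zero_pow (by omega), mul_zero]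
      · intro h2
        exact absurd (mem_range.2 (Nat.lt_succ_self r)) h2
    · have h1 := root_eq h i hi
      have h2 : ∑ j ∈ range (r + 1), (c j : ℂ) * (-δ i) ^ (r - j) =
          (-δ i) ^ r * ∑ j ∈ range (r + 1), (c j : ℂ) * (-(δ i)⁻¹) ^ j := by
        rw [mul_sum]
        refine sum_congr rfl fun j hj => ?_
        rw [mem_range] at hj
        have e1 : (-δ i) ^ r = (-δ i) ^ (r - j) * (-δ i) ^ j := by
          rw [← pow_add]
          congr 1
          omega
        have e2 : (-δ i) ^ j * (-(δ i)⁻¹) ^ j = 1 := by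
          rw [← mul_pow, neg_mul_neg, mul_inv_cancel₀ hi, one_pow]
        rw [e1]
        linear_combination (-(c j : ℂ) * (-δ i) ^ (r - j)) * e2
      rw [h2, h1, mul_zero]

/-- the Chern roots at one prime power -/
theorem roots_local (n p k vv : ℕ) (hp : p.Prime) (hp2 : p ≠ 2)
    (h : ∏ i, (1 + C (δ i) * X) = ∑ j ∈ range (r + 1), C ((c j : ℤ) : ℂ) * X ^ j)
    (hI : Integral n (fun S : Finset (Fin r) => (-1 : ℤ) ^ S.card) (fun S => ∑ i ∈ S, -δ i))
    (hg : Good r n p k vv (c r)) {R : Subring ℂ} {F : Type} [Field F] {φ : R →+* F}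
    (hV : VR R φ) [CharP F p] (hint : ∀ x : ℂ, IsIntegral ℤ x → x ∈ R) (i : Fin r) :
    ∃ (a : ℤ) (z : R), δ i = a + ((p ^ k : ℕ) : ℂ) * z := by
  have : Fact p.Prime := ⟨hp⟩
  obtain ⟨G, hG, hdeg, hroot⟩ := exists_poly h
  have hprod : ∏ i, (-δ i) = (((-1) ^ r * c r : ℤ) : ℂ) := by
    rw [prod_neg, prod_root h, card_univ, Fintype.card_fin]
    push_cast
    ring
  have hg' : Good r n p k vv ((-1) ^ r * c r) := by
    have hu : ∀ x : ℤ, x ∣ (-1) ^ r * c r ↔ x ∣ c r := by
      intro x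
      rcases neg_one_pow_eq_or ℤ r with h1 | h1
      · rw [h1, one_mul]
      · rw [h1, neg_one_mul, dvd_neg]
    unfold Good at hg ⊢
    rw [hu, hu]
    exact hg
  obtain ⟨a, z, haz⟩ := law hV hp2 k n vv (fun i => -δ i) (fun i => hint _ (root_integral h i).neg)
    hI _ hprod G hG hdeg hroot hg' i
  refine ⟨-(a : ℤ), -z, ?_⟩
  push_cast
  push_cast at haz
  linear_combination -haz

/-- congruence of the coefficients at one prime power -/
theorem local_mod (n p k vv : ℕ) (hp : p.Prime) (hp2 : p ≠ 2)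
    (h : ∏ i, (1 + C (δ i) * X) = ∑ j ∈ range (r + 1), C ((c j : ℤ) : ℂ) * X ^ j)
    (hI : Integral n (fun S : Finset (Fin r) => (-1 : ℤ) ^ S.card) (fun S => ∑ i ∈ S, -δ i))
    (hg : Good r n p k vv (c r)) :
    ∃ d : Fin r → ℤ, ∀ j ≤ r,
      ((p ^ k : ℕ) : ℤ) ∣ (∏ i, (1 + C (d i) * X) : ℤ[X]).coeff j - c j := by
  have : Fact p.Prime := ⟨hp⟩
  obtain ⟨R, F, iF, φ, iC, hV, hint⟩ := exists_VR p hp
  have hl := fun i => roots_local n p k vv hp hp2 h hI hg hV hint i
  choose d z hdz using hl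
  refine ⟨d, fun j hj => ?_⟩
  set I : Ideal R := Ideal.span {((p ^ k : ℕ) : R)} with hIdef
  -- the identity over `R`
  have h2 : (∏ i, (1 + C ((d i : R) + ((p ^ k : ℕ) : R) * z i) * X)) =
      ∑ j ∈ range (r + 1), C ((c j : ℤ) : R) * X ^ j := by
    apply Polynomial.map_injective R.subtype Subtype.val_injective
    rw [Polynomial.map_prod, Polynomial.map_sum]
    have e1 : ∏ i, Polynomial.map R.subtype
        (1 + C ((d i : R) + ((p ^ k : ℕ) : R) * z i) * X) = ∏ i, (1 + C (δ i) * X) := by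
      refine prod_congr rfl fun i _ => ?_
      rw [Polynomial.map_add, Polynomial.map_one, Polynomial.map_mul, map_C, map_X, hdz i]
      simp
    rw [e1, h]
    refine sum_congr rfl fun j _ => ?_
    rw [Polynomial.map_mul, Polynomial.map_C, Polynomial.map_pow, Polynomial.map_X]
    congr 2
  have h3 := congrArg (Polynomial.map (Ideal.Quotient.mk I)) h2
  have h4 : (∏ i, (1 + C ((d i : R) + ((p ^ k : ℕ) : R) * z i) * X)).map (Ideal.Quotient.mk I) =
      (∏ i, (1 + C (d i : R) * X)).map (Ideal.Quotient.mk I) := by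
    rw [Polynomial.map_prod, Polynomial.map_prod]
    refine prod_congr rfl fun i _ => ?_
    simp only [Polynomial.map_add, Polynomial.map_one, Polynomial.map_mul, map_C, map_X]
    congr 3
    rw [Ideal.Quotient.eq, hIdef, add_sub_cancel_left]
    exact Ideal.mul_mem_right _ _ (Ideal.mem_span_singleton_self _)
  rw [h4] at h3
  have h5 := congrArg (fun P => P.coeff j) h3
  simp only [coeff_map] at h5
  rw [Ideal.Quotient.eq, hIdef, Ideal.mem_span_singleton] at h5
  obtain ⟨y, hy⟩ := h5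
  have e1 : (∏ i, (1 + C (d i : R) * X) : R[X]).coeff j =
      (((∏ i, (1 + C (d i) * X) : ℤ[X]).coeff j : ℤ) : R) := by
    have : (∏ i, (1 + C (d i : R) * X) : R[X]) =
        (∏ i, (1 + C (d i) * X) : ℤ[X]).map (Int.castRingHom R) := by
      rw [Polynomial.map_prod]
      refine prod_congr rfl fun i _ => ?_
      simp
    rw [this, coeff_map, eq_intCast]
  have e2 : (∑ j ∈ range (r + 1), C ((c j : ℤ) : R) * X ^ j : R[X]).coeff j = ((c j : ℤ) : R) := by
    rw [finsetSum_coeff]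
    simp only [coeff_C_mul, coeff_X_pow]
    rw [sum_eq_single j]
    · simp
    · intro i _ hi
      rw [if_neg (fun h => hi h.symm), mul_zero]
    · intro h
      exact absurd (mem_range.2 (by omega)) h
  rw [e1, e2] at hy
  have h6 := hV.int_dvd (p := p) ((∏ i, (1 + C (d i) * X) : ℤ[X]).coeff j - c j) k y (by
    push_cast at hy ⊢
    exact hy)
  push_cast
  exact h6

/-- Chinese remainders -/
theorem crt_gen (Q : Finset ℕ) (m : ℕ → ℤ) (hm : ∀ p ∈ Q, ∀ q ∈ Q, p ≠ q → IsCoprime (m p) (m q))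
    (a : ℕ → ℤ) : ∃ z : ℤ, ∀ p ∈ Q, m p ∣ z - a p := by
  classical
  induction Q using Finset.induction_on with
  | empty => exact ⟨0, by simp⟩
  | insert q Q hq ih =>
    obtain ⟨z, hz⟩ := ih fun p hp p' hp' => hm p (mem_insert_of_mem hp) p' (mem_insert_of_mem hp')
    have hcop : IsCoprime (m q) (∏ p ∈ Q, m p) := by
      refine IsCoprime.prod_right fun p hp => ?_
      exact hm q (mem_insert_self _ _) p (mem_insert_of_mem hp) (fun h => hq (h ▸ hp))
    obtain ⟨u, v, huv⟩ := hcop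
    refine ⟨z + (a q - z) * (v * ∏ p ∈ Q, m p), fun p hp => ?_⟩
    rcases mem_insert.1 hp with rfl | hp
    · refine ⟨(z - a p) * u, ?_⟩
      linear_combination (a p - z) * huv
    · have h1 : m p ∣ ∏ p ∈ Q, m p := dvd_prod_of_mem (fun p : ℕ => m p) hp
      obtain ⟨w, hw⟩ := hz p hp
      obtain ⟨t, ht⟩ := h1
      refine ⟨w + (a q - z) * v * t, ?_⟩
      rw [ht]
      linear_combination hw

/-- **All prime powers at once.** -/
theorem all_powers (n : ℕ) (hr : 1 ≤ r)
    (h : ∏ i, (1 + C (δ i) * X) = ∑ j ∈ range (r + 1), C ((c j : ℤ) : ℂ) * X ^ j)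
    (hI : Integral n (fun S : Finset (Fin r) => (-1 : ℤ) ^ S.card) (fun S => ∑ i ∈ S, -δ i)) :
    ∃ d : Fin r → ℤ, ∀ p k vv : ℕ, p.Prime → p ≠ 2 → Good r n p k vv (c r) → ∀ j ≤ r,
      ((p ^ k : ℕ) : ℤ) ∣ (∏ i, (1 + C (d i) * X) : ℤ[X]).coeff j - c j := by
  classical
  have hbound : ∀ p k vv : ℕ, Good r n p k vv (c r) → p ^ k ≤ n := by
    rintro p k vv (⟨-, -, h1⟩ | ⟨-, -, h1⟩)
    · exact (Nat.le_mul_of_pos_left _ hr).trans h1
    · refine (Nat.le_mul_of_pos_left _ ?_).trans h1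
      positivity
  -- one prime
  have h1 : ∀ p : ℕ, ∃ (K : ℕ) (e : Fin r → ℤ), p.Prime → p ≠ 2 →
      (∀ k vv, Good r n p k vv (c r) → k ≤ K) ∧
      ∀ j ≤ r, ((p ^ K : ℕ) : ℤ) ∣ (∏ i, (1 + C (e i) * X) : ℤ[X]).coeff j - c j := by
    intro p
    by_cases hp : p.Prime ∧ p ≠ 2
    · set S : Finset ℕ := (range (n + 1)).filter (fun k => ∃ vv, Good r n p k vv (c r)) with hS
      have hkS : ∀ k vv, Good r n p k vv (c r) → k ∈ S := by
        intro k vv hg
        rw [hS, mem_filter, mem_range]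
        refine ⟨?_, vv, hg⟩
        have h2 := hbound p k vv hg
        have h3 : k < p ^ k := Nat.lt_pow_self hp.1.one_lt
        omega
      by_cases hne : S.Nonempty
      · obtain ⟨K, hK, hmax⟩ := exists_max_image S id hne
        obtain ⟨vv, hvv⟩ := (mem_filter.1 hK).2
        obtain ⟨e, he⟩ := local_mod n p K vv hp.1 hp.2 h hI hvv
        exact ⟨K, e, fun _ _ => ⟨fun k vv hg => hmax k (hkS k vv hg), he⟩⟩
      · refine ⟨0, 0, fun _ _ => ⟨fun k vv hg => absurd ⟨k, hkS k vv hg⟩ hne, fun j _ => ?_⟩⟩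
        simp
    · exact ⟨0, 0, fun h2 h3 => absurd ⟨h2, h3⟩ hp⟩
  choose K e hKe using h1
  set Q : Finset ℕ := (range (n + 1)).filter (fun p => p.Prime ∧ p ≠ 2) with hQ
  have h2 : ∀ i, ∃ z : ℤ, ∀ p ∈ Q, ((p ^ K p : ℕ) : ℤ) ∣ z - e p i := fun i =>
    crt_gen Q (fun p => ((p ^ K p : ℕ) : ℤ)) (by
      intro p hp q hq hpq
      rw [Nat.isCoprime_iff_coprime]
      exact Nat.Coprime.pow _ _ ((Nat.coprime_primes (mem_filter.1 hp).2.1
        (mem_filter.1 hq).2.1).2 hpq)) fun p => e p i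
  choose d hd using h2
  refine ⟨d, fun p k vv hp hp2 hg j hj => ?_⟩
  rcases Nat.eq_zero_or_pos k with hk | hk
  · subst hk
    simp
  have hpn : p ∈ Q := by
    rw [hQ, mem_filter, mem_range]
    refine ⟨?_, hp, hp2⟩
    have h3 := hbound p k vv hg
    have h4 : p ≤ p ^ k := Nat.le_self_pow hk.ne' p
    omega
  obtain ⟨h3, h4⟩ := hKe p hp hp2
  have h5 : ((p ^ k : ℕ) : ℤ) ∣ ((p ^ K p : ℕ) : ℤ) := by
    exact_mod_cast pow_dvd_pow p (h3 k vv hg)
  have h6 := coeff_congr (p ^ K p) d (e p) (fun i => hd i p hpn) j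
  have h7 := dvd_add h6 (h4 j hj)
  rw [sub_add_sub_cancel] at h7
  exact h5.trans h7

end Pool.Agent.Q42.PP
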