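import Mathlib
import Pool.Agent.Q42.PP.Global
import Pool.Agent.Q49.RB.T1

/-!
# The ring generated by the Chern roots
-/

set_option autoImplicit false
set_option linter.unusedSectionVars false

namespace Pool.Agent.Q42.PP

open Finset Polynomial Pool.Agent.Q49.RB Pool.Agent.Q42.SM

variable {r : ℕ} {δ : Fin r → ℂ} {c : ℕ → ℤ}

/-- the numbers which are integers modulo `q` form a ring -/
theorem adjoin_local {R : Subring ℂ} (q : ℕ) (hδ : ∀ i, ∃ (a : ℤ) (z : R), δ i = a + (q : ℂ) * z)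
    (θ : ℂ) (hθ : θ ∈ Algebra.adjoin ℤ (Set.range δ)) :
    ∃ (a : ℤ) (z : R), θ = a + (q : ℂ) * z := by
  induction hθ using Algebra.adjoin_induction with
  | mem x hx =>
    obtain ⟨i, rfl⟩ := hx
    exact hδ i
  | algebraMap m => exact ⟨m, 0, by simp⟩
  | add x y _ _ hx hy =>
    obtain ⟨a, z, rfl⟩ := hx
    obtain ⟨b, w, rfl⟩ := hy
    exact ⟨a + b, z + w, by push_cast; ring⟩
  | mul x y _ _ hx hy =>
    obtain ⟨a, z, rfl⟩ := hx
    obtain ⟨b, w, rfl⟩ := hy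
    exact ⟨a * b, a * w + b * z + q * z * w, by push_cast; ring⟩

/-- comparison of valuations -/
theorem val_eq {p : ℕ} (hp : p.Prime) {x y : ℤ} (hx : ¬ (p : ℤ) ∣ x) (hy : ¬ (p : ℤ) ∣ y) {a b : ℕ}
    (h : (p : ℤ) ^ a * x = (p : ℤ) ^ b * y) : a = b ∧ x = y := by
  have hp0 : (p : ℤ) ≠ 0 := by exact_mod_cast hp.ne_zero
  have key : ∀ {a b : ℕ} {x y : ℤ}, ¬ (p : ℤ) ∣ x → (p : ℤ) ^ a * x = (p : ℤ) ^ b * y → b ≤ a := by
    intro a b x y hx h
    by_contra hcon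
    push Not at hcon
    obtain ⟨d, rfl⟩ := Nat.exists_eq_add_of_lt hcon
    apply hx
    refine ⟨(p : ℤ) ^ d * y, ?_⟩
    apply mul_left_cancel₀ (pow_ne_zero a hp0)
    rw [h]
    ring
  have hab : a = b := le_antisymm (key hy h.symm) (key hx h)
  refine ⟨hab, ?_⟩
  rw [hab] at h
  exact mul_left_cancel₀ (pow_ne_zero b hp0) h

theorem int_dec {p : ℕ} (hp : p.Prime) {a : ℤ} (ha : a ≠ 0) :
    ∃ (w : ℕ) (b : ℤ), ¬ (p : ℤ) ∣ b ∧ a = (p : ℤ) ^ w * b := by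
  obtain ⟨w, b, hb, hw⟩ := Nat.exists_eq_pow_mul_and_not_dvd (Int.natAbs_ne_zero.2 ha) p hp.ne_one
  have hb' : ¬ (p : ℤ) ∣ (b : ℤ) := by exact_mod_cast hb
  rcases Int.natAbs_eq a with h | h
  · refine ⟨w, b, hb', ?_⟩
    rw [h, hw]
    push_cast
    ring
  · refine ⟨w, -b, fun hd => hb' ((dvd_neg).1 hd), ?_⟩
    rw [h, hw]
    push_cast
    ring

/-- a prime at which the square class of `Δ` is not trivial divides `Δ` to a high power -/
theorem bad_prime (n p k vv : ℕ) (hp : p.Prime) (hp2 : p ≠ 2)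
    (h : ∏ i, (1 + C (δ i) * X) = ∑ j ∈ range (r + 1), C ((c j : ℤ) : ℂ) * X ^ j)
    (hI : Integral n (fun S : Finset (Fin r) => (-1 : ℤ) ^ S.card) (fun S => ∑ i ∈ S, -δ i))
    (hg : Good r n p k vv (c r)) (θ : ℂ) (hθ : θ ∈ Algebra.adjoin ℤ (Set.range δ)) (Δ : ℤ)
    (hΔ : θ ^ 2 = Δ) (σ : ℤ) (i m t : ℕ) (hσ : σ = 1 ∨ σ = -1)
    (hsq : Squarefree m) (ht : t ≠ 0)
    (hdec : Δ = σ * 2 ^ i * m * (t : ℤ) ^ 2) (hj : jacobiSym (σ * 2 ^ i * m) p ≠ 1) :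
    (p : ℤ) ^ (2 * k) ∣ Δ := by
  have hpf : Fact p.Prime := ⟨hp⟩
  have hpi : Prime (p : ℤ) := Nat.prime_iff_prime_int.1 hp
  obtain ⟨R, F, iF, φ, iC, hV, hint⟩ := exists_VR p hp
  obtain ⟨a, z, haz⟩ := adjoin_local (R := R) (p ^ k) (roots_local n p k vv hp hp2 h hI hg hV hint) θ hθ
  by_contra hcon
  have hpC : (p : ℂ) ≠ 0 := by exact_mod_cast hp.ne_zero
  have hp0 : (p : ℤ) ≠ 0 := by exact_mod_cast hp.ne_zero
  -- `a` is not divisible by `p ^ k`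
  have ha : ¬ (p : ℤ) ^ k ∣ a := by
    rintro ⟨a', ha'⟩
    apply hcon
    refine hV.int_dvd (p := p) Δ (2 * k) ((a' + z) ^ 2) ?_
    apply Subtype.ext
    push_cast
    rw [← hΔ, haz, ha']
    push_cast
    ring
  have ha0 : a ≠ 0 := by
    rintro rfl
    exact ha (dvd_zero _)
  obtain ⟨w, a', hpa', hwa⟩ := int_dec hp ha0
  have hwk : w < k := by
    by_contra hle
    push Not at hle
    exact ha (by rw [hwa]; exact Dvd.dvd.mul_right (pow_dvd_pow _ hle) _)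
  obtain ⟨e, rfl⟩ := Nat.exists_eq_add_of_lt hwk
  -- `Δ` is `p ^ (2 w)` times a square modulo `p`
  have hΔR : (Δ : ℂ) = (p : ℂ) ^ (2 * w) * ((a' : ℂ) + (p : ℂ) ^ (e + 1) * z) ^ 2 := by
    rw [← hΔ, haz, hwa]
    push_cast
    ring
  have hdvd : (p : ℤ) ^ (2 * w) ∣ Δ := by
    refine hV.int_dvd (p := p) Δ (2 * w) (((a' : R) + (p : R) ^ (e + 1) * z) ^ 2) ?_
    apply Subtype.ext
    push_cast
    exact hΔR
  obtain ⟨Δ', hΔ'⟩ := hdvd
  have hφ : φ (Δ' : R) = φ ((a' : R) ^ 2) := by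
    have h1 : (Δ' : R) = ((a' : R) + (p : R) ^ (e + 1) * z) ^ 2 := by
      apply Subtype.ext
      push_cast
      have h2 : (p : ℂ) ^ (2 * w) ≠ 0 := pow_ne_zero _ hpC
      apply mul_left_cancel₀ h2
      rw [← hΔR, hΔ']
      push_cast
      ring
    rw [h1]
    simp only [map_pow, map_add, map_mul, map_natCast, CharP.cast_eq_zero]
    ring
  have hmod : ((Δ' : ℤ) : ZMod p) = ((a' : ℤ) : ZMod p) ^ 2 := by
    have h1 : φ ((Δ' - a' ^ 2 : ℤ) : R) = 0 := by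
      push_cast
      rw [map_sub, hφ, sub_self]
    rw [map_intCast, CharP.intCast_eq_zero_iff F p] at h1
    have h2 := (ZMod.intCast_zmod_eq_zero_iff_dvd _ p).2 h1
    push_cast at h2
    rwa [sub_eq_zero] at h2
  have ha'0 : ((a' : ℤ) : ZMod p) ≠ 0 := by
    rw [Ne, ZMod.intCast_zmod_eq_zero_iff_dvd]
    exact hpa'
  have hΔ'0 : ¬ (p : ℤ) ∣ Δ' := by
    rw [← ZMod.intCast_zmod_eq_zero_iff_dvd, hmod]
    exact pow_ne_zero 2 ha'0
  obtain ⟨j, t', hpt', htj⟩ := Nat.exists_eq_pow_mul_and_not_dvd ht p hp.ne_one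
  have hpt'' : ¬ (p : ℤ) ∣ (t' : ℤ) := by exact_mod_cast hpt'
  by_cases hpm : p ∣ m
  · obtain ⟨m', hm'⟩ := hpm
    have hco : Nat.Coprime p m' := by
      rw [hm'] at hsq
      exact Nat.coprime_of_squarefree_mul hsq
    have hpm' : ¬ (p : ℤ) ∣ (m' : ℤ) := by
      have : ¬ p ∣ m' := (Nat.Prime.coprime_iff_not_dvd hp).1 hco
      exact_mod_cast this
    have hpD : ¬ (p : ℤ) ∣ σ * 2 ^ i * m' * (t' : ℤ) ^ 2 := by
      intro h
      rcases hpi.dvd_or_dvd h with h | h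
      · rcases hpi.dvd_or_dvd h with h | h
        · exact not_dvd_sigma hp hp2 hσ i h
        · exact hpm' h
      · exact hpt'' (hpi.dvd_of_dvd_pow h)
    have h1 := val_eq hp (a := 2 * w) (b := 2 * j + 1) hΔ'0 hpD (by
      rw [← hΔ', hdec, hm', htj]
      push_cast
      ring)
    omega
  · have hpD : ¬ (p : ℤ) ∣ σ * 2 ^ i * m * (t' : ℤ) ^ 2 := by
      intro h
      rcases hpi.dvd_or_dvd h with h | h
      · rcases hpi.dvd_or_dvd h with h | h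
        · exact not_dvd_sigma hp hp2 hσ i h
        · exact hpm (by exact_mod_cast h)
      · exact hpt'' (hpi.dvd_of_dvd_pow h)
    have h1 := (val_eq hp (a := 2 * w) (b := 2 * j) hΔ'0 hpD (by
      rw [← hΔ', hdec, htj]
      push_cast
      ring)).2
    have ht0 : ((t' : ℤ) : ZMod p) ≠ 0 := by
      rw [Ne, ZMod.intCast_zmod_eq_zero_iff_dvd]
      exact hpt''
    have hs0 : ((σ * 2 ^ i * m : ℤ) : ZMod p) ≠ 0 := by
      rw [Ne, ZMod.intCast_zmod_eq_zero_iff_dvd]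
      intro h
      rcases hpi.dvd_or_dvd h with h | h
      · exact not_dvd_sigma hp hp2 hσ i h
      · exact hpm (by exact_mod_cast h)
    apply hj
    rw [← jacobiSym.legendreSym.to_jacobiSym, legendreSym.eq_one_iff p hs0]
    refine ⟨((a' : ℤ) : ZMod p) * ((t' : ℤ) : ZMod p)⁻¹, ?_⟩
    have h2 : ((t' : ℤ) : ZMod p) * ((t' : ℤ) : ZMod p)⁻¹ = 1 := mul_inv_cancel₀ ht0
    have h3 : ((Δ' : ℤ) : ZMod p) = ((σ * 2 ^ i * m : ℤ) : ZMod p) * ((t' : ℤ) : ZMod p) ^ 2 := by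
      rw [h1]
      push_cast
      ring
    rw [hmod] at h3
    calc ((σ * 2 ^ i * m : ℤ) : ZMod p) =
          ((σ * 2 ^ i * m : ℤ) : ZMod p) *
            (((t' : ℤ) : ZMod p) * ((t' : ℤ) : ZMod p)⁻¹) ^ 2 := by
            rw [h2, one_pow, mul_one]
        _ = ((σ * 2 ^ i * m : ℤ) : ZMod p) * ((t' : ℤ) : ZMod p) ^ 2 *
            (((t' : ℤ) : ZMod p)⁻¹) ^ 2 := by
            rw [mul_pow]
            ring
        _ = ((a' : ℤ) : ZMod p) ^ 2 * (((t' : ℤ) : ZMod p)⁻¹) ^ 2 := by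
            rw [h3]
        _ = _ := by ring

/-- few primes can divide a small number to high powers -/
theorem few_gen (K n T M : ℕ) (hM0 : M ≠ 0) (hM : M * T ^ K < n ^ K) (hK : 0 < K) (Q : Finset ℕ)
    (hQ : ∀ p ∈ Q, p.Prime ∧ ∃ v : ℕ, p ^ v ∣ M ∧ n ≤ T * p ^ v) : Q.card < K := by
  by_contra hcon
  push Not at hcon
  obtain ⟨R, hRQ, hR⟩ := exists_subset_card_eq hcon
  have hQ' : ∀ p, ∃ v : ℕ, p ∈ R → p ^ v ∣ M ∧ n ≤ T * p ^ v := by
    intro p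
    by_cases h : p ∈ R
    · obtain ⟨v, hv⟩ := (hQ p (hRQ h)).2
      exact ⟨v, fun _ => hv⟩
    · exact ⟨0, fun h' => absurd h' h⟩
  choose v hv using hQ'
  have h1 : ∏ p ∈ R, p ^ v p ∣ M := by
    refine Finset.prod_dvd_of_isRelPrime ?_ fun p hp => (hv p hp).1
    intro p hp q hq hpq
    have h2 := (Nat.coprime_primes (hQ p (hRQ hp)).1 (hQ q (hRQ hq)).1).2 hpq
    exact (Nat.coprime_iff_isRelPrime).1 (Nat.Coprime.pow _ _ h2)
  have h2 : ∏ p ∈ R, p ^ v p ≤ M := Nat.le_of_dvd (Nat.pos_of_ne_zero hM0) h1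
  have h3 : ∏ _p ∈ R, n ≤ ∏ p ∈ R, T * p ^ v p := prod_le_prod' fun p hp => (hv p hp).2
  rw [prod_const, hR, prod_mul_distrib, prod_const, hR] at h3
  have h4 : T ^ K * ∏ p ∈ R, p ^ v p ≤ T ^ K * M := Nat.mul_le_mul_left _ h2
  rw [mul_comm M] at hM
  omega

end Pool.Agent.Q42.PP
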