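import Mathlib
import Pool.Agent.Q42.PP.Disc

/-!
# Integers which are squares in the ring generated by the Chern roots
-/

set_option autoImplicit false
set_option linter.unusedSectionVars false

namespace Pool.Agent.Q42.PP

open Finset Polynomial Pool.Agent.Q49.RB Pool.Agent.Q42.SM

variable {r : ℕ} {δ : Fin r → ℂ} {c : ℕ → ℤ}

theorem exists_max_pow (n T p : ℕ) (hp : 2 ≤ p) (hT : 0 < T) (h : T * p ≤ n) :
    ∃ k, 1 ≤ k ∧ T * p ^ k ≤ n ∧ n < T * p ^ (k + 1) := by
  classical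
  have hne : ∃ k, n < T * p ^ (k + 1) := by
    refine ⟨n, ?_⟩
    have h1 : n < p ^ n := Nat.lt_pow_self hp
    calc n < p ^ n := h1
      _ ≤ p ^ (n + 1) := Nat.pow_le_pow_right (by omega) (by omega)
      _ ≤ T * p ^ (n + 1) := Nat.le_mul_of_pos_left _ hT
  have h1 := Nat.find_spec hne
  have h2 : ∀ m, m < Nat.find hne → T * p ^ (m + 1) ≤ n := fun m hm => by
    have := Nat.find_min hne hm
    omega
  have h3 : 1 ≤ Nat.find hne := by
    by_contra hcon
    have h4 : Nat.find hne = 0 := by omega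
    rw [h4, zero_add, pow_one] at h1
    omega
  refine ⟨Nat.find hne, h3, ?_, h1⟩
  have h5 := h2 (Nat.find hne - 1) (by omega)
  rwa [Nat.sub_add_cancel h3] at h5

theorem core_disc (n V T : ℕ) (hr : 1 ≤ r)
    (h : ∏ i, (1 + C (δ i) * X) = ∑ j ∈ range (r + 1), C ((c j : ℤ) : ℂ) * X ^ j)
    (hI : Integral n (fun S : Finset (Fin r) => (-1 : ℤ) ^ S.card) (fun S => ∑ i ∈ S, -δ i))
    (hc0 : c r ≠ 0) (hcV : (c r).natAbs < 2 ^ (V + 1))
    (hT : T = r * (V + 1) + 2 ^ (r + 1) + 2 * r + 1)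
    (θ : ℂ) (hθ : θ ∈ Algebra.adjoin ℤ (Set.range δ)) (Δ : ℤ) (hΔ : θ ^ 2 = Δ)
    (hns : ¬ IsSquare Δ) (hle : Δ.natAbs * T ^ 14 < n ^ 14) :
    ∃ (m : ℕ) (_ : NeZero m) (ψ : DirichletCharacter ℂ 8), Odd m ∧ Squarefree m ∧
      m.primeFactors.card ≤ 2 ^ r + r + 15 ∧ chi m ψ ≠ 1 ∧ m ≤ Δ.natAbs ∧
      ∃ E : Finset ℕ, (∀ q ∈ E, q.Prime) ∧ E.card ≤ 2 ^ r + r + 15 ∧
        ∀ l : ℕ, l.Prime → l ≤ n / T → l ∉ E → chi m ψ (l : ZMod (8 * m)) = 1 := by
  classical
  have h0 : Δ ≠ 0 := by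
    intro h
    exact hns (by rw [h]; exact IsSquare.zero)
  have hT0 : 0 < T := by
    rw [hT]
    exact Nat.succ_pos _
  obtain ⟨σ, i, m, t, hσ, hi, hodd, hsq, ht, hdec⟩ := decomp _ h0
  have hm0 : m ≠ 0 := by
    rintro rfl
    exact absurd hodd (by decide)
  have hmz : NeZero m := ⟨hm0⟩
  obtain ⟨ψ, hψ⟩ := rec σ hσ i m hodd
  have hs1 : σ * 2 ^ i * (m : ℤ) ≠ 1 := by
    intro h
    apply hns
    rw [hdec, h, one_mul]
    exact ⟨t, by ring⟩
  have hne := chi_ne_one m ψ hodd hsq σ hσ i hi hs1 hψ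
  have hmΔ : (m : ℤ) ∣ Δ := by
    rw [hdec]
    exact ⟨σ * 2 ^ i * (t : ℤ) ^ 2, by ring⟩
  set Q : Finset ℕ := ((range (n / T + 1)) ∪ m.primeFactors).filter
    (fun p => p.Prime ∧ 2 ^ r + r < p ∧ jacobiSym (σ * 2 ^ i * m) p ≠ 1) with hQ
  have hQ14 : Q.card < 14 := by
    refine few_gen 14 n T Δ.natAbs (Int.natAbs_ne_zero.2 h0) hle (by norm_num) Q fun p hp => ?_
    rw [hQ, mem_filter, mem_union, mem_range] at hp
    obtain ⟨h1, h2, h3, h4⟩ := hp
    refine ⟨h2, ?_⟩
    have hp2 : p ≠ 2 := by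
      rintro rfl
      have := Nat.one_lt_two_pow (n := r) (by omega)
      omega
    by_cases hpn : T * p ≤ n
    · obtain ⟨k, hk1, hk2, hk3⟩ := exists_max_pow n T p h2.two_le hT0 hpn
      have hg : Good r n p k V (c r) := by
        right
        refine ⟨h3, fun hd => ?_, by rw [← hT]; exact hk2⟩
        have h5 : p ^ (V + 1) ∣ (c r).natAbs := by
          rw [← Int.natCast_dvd_natCast, Int.dvd_natAbs]
          exact_mod_cast hd
        have h6 := Nat.le_of_dvd (Int.natAbs_pos.2 hc0) h5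
        have h7 : 2 ^ (V + 1) ≤ p ^ (V + 1) := Nat.pow_le_pow_left h2.two_le _
        omega
      have h5 := bad_prime n p k V h2 hp2 h hI hg θ hθ Δ hΔ σ i m t hσ hsq ht hdec h4
      refine ⟨2 * k, ?_, ?_⟩
      · rw [← Int.natCast_dvd_natCast, Int.dvd_natAbs]
        push_cast
        exact h5
      · refine hk3.le.trans (Nat.mul_le_mul_left _ (Nat.pow_le_pow_right h2.pos (by omega)))
    · have hpm : p ∣ m := by
        rcases h1 with h1 | h1
        · exfalso
          apply hpn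
          calc T * p ≤ T * (n / T) := Nat.mul_le_mul_left _ (by omega)
            _ ≤ n := Nat.mul_div_le n T
        · exact Nat.dvd_of_mem_primeFactors h1
      refine ⟨1, ?_, ?_⟩
      · rw [pow_one, ← Int.natCast_dvd_natCast, Int.dvd_natAbs]
        exact (Int.natCast_dvd_natCast.2 hpm).trans hmΔ
      · rw [pow_one]
        omega
  have hsub : m.primeFactors ⊆ Q ∪ range (2 ^ r + r + 1) := by
    intro p hp
    have hpp := Nat.prime_of_mem_primeFactors hp
    have hpd := Nat.dvd_of_mem_primeFactors hp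
    rw [mem_union, hQ, mem_filter, mem_union, mem_range, mem_range]
    by_cases hpB : p < 2 ^ r + r + 1
    · exact Or.inr hpB
    left
    refine ⟨Or.inr hp, hpp, by omega, ?_⟩
    have hpf : Fact p.Prime := ⟨hpp⟩
    rw [← jacobiSym.legendreSym.to_jacobiSym]
    have h1 : legendreSym p (σ * 2 ^ i * m) = 0 := by
      rw [legendreSym.eq_zero_iff, ZMod.intCast_zmod_eq_zero_iff_dvd]
      exact Dvd.dvd.mul_left (by exact_mod_cast hpd) _
    rw [h1]
    norm_num
  refine ⟨m, hmz, ψ, hodd, hsq, ?_, hne, ?_,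
    (Q ∪ (range (2 ^ r + r + 1)).filter Nat.Prime), ?_, ?_, ?_⟩
  · refine (card_le_card hsub).trans ((card_union_le _ _).trans ?_)
    rw [card_range]
    omega
  · exact Nat.le_of_dvd (Int.natAbs_pos.2 h0) (by
      rw [← Int.natCast_dvd_natCast, Int.dvd_natAbs]
      exact hmΔ)
  · intro q hq
    rcases mem_union.1 hq with h | h
    · rw [hQ, mem_filter] at h
      exact h.2.1
    · exact (mem_filter.1 h).2
  · refine (card_union_le _ _).trans ?_
    have h1 : ((range (2 ^ r + r + 1)).filter Nat.Prime).card ≤ 2 ^ r + r + 1 :=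
      (card_filter_le _ _).trans (card_range _).le
    omega
  · intro l hl hln hlE
    rw [mem_union, not_or] at hlE
    have hlB : 2 ^ r + r < l := by
      by_contra hcon
      apply hlE.2
      rw [mem_filter, mem_range]
      exact ⟨by omega, hl⟩
    have hl2 : l ≠ 2 := by
      rintro rfl
      have := Nat.one_lt_two_pow (n := r) (by omega)
      omega
    have hlo : Odd l := hl.odd_of_ne_two hl2
    rw [chi_apply, ← hψ l hlo]
    by_contra hcon
    apply hlE.1
    rw [hQ, mem_filter, mem_union, mem_range]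
    refine ⟨Or.inl (by omega), hl, hlB, fun h => hcon ?_⟩
    rw [h]
    norm_num

end Pool.Agent.Q42.PP
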