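import Mathlib
import Pool.Agent.Q42.PP.Disc2

/-!
# Lower bound for the squares in the ring generated by the Chern roots
-/

set_option autoImplicit false
set_option linter.unusedSectionVars false

namespace Pool.Agent.Q42.PP

open Finset Polynomial Pool.Agent.Q49.RB Pool.Agent.Q42.SM

theorem disc_num (r : ℕ) (hr : 1 ≤ r) (ε : ℝ) (hε : 0 < ε) : ∃ η : ℝ, 0 < η ∧ ∃ n0 : ℕ,
    ∀ n : ℕ, n0 ≤ n → ∀ (c : ℕ → ℤ) (δ : Fin r → ℂ),
    ∏ i, (1 + C (δ i) * X) = ∑ j ∈ range (r + 1), C ((c j : ℤ) : ℂ) * X ^ j →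
    Integral n (fun S : Finset (Fin r) => (-1 : ℤ) ^ S.card) (fun S => ∑ i ∈ S, -δ i) →
    c r ≠ 0 → |((c r : ℤ) : ℝ)| ≤ Real.exp ((n : ℝ) ^ η) →
    ∀ θ ∈ Algebra.adjoin ℤ (Set.range δ), ∀ Δ : ℤ, θ ^ 2 = Δ → ¬ IsSquare Δ →
    (n : ℝ) ^ (4 * Real.exp (1 / 2) - ε) ≤ |(Δ : ℝ)| := by
  obtain ⟨hq1, hq2⟩ := exp_half_bounds
  obtain ⟨ε1, hε1⟩ : ∃ ε1, ε1 = min ε 1 := ⟨_, rfl⟩
  have hε10 : 0 < ε1 := by rw [hε1]; exact lt_min hε one_pos
  have hε11 : ε1 ≤ 1 := by rw [hε1]; exact min_le_right _ _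
  have hε1le : ε1 ≤ ε := by rw [hε1]; exact min_le_left _ _
  obtain ⟨q, hq⟩ : ∃ q, q = 4 * Real.exp (1 / 2) := ⟨_, rfl⟩
  have hq6 : 6 ≤ q := by rw [hq]; linarith
  have hq7 : q ≤ 7 := by rw [hq]; linarith
  obtain ⟨η, hη⟩ : ∃ η, η = ε1 / 56 := ⟨_, rfl⟩
  have hη0 : 0 < η := by rw [hη]; positivity
  obtain ⟨y0, hy0⟩ := NR (ε1 / 98) (by positivity) (2 ^ r + r + 15)
  have hev : ∀ᶠ x : ℝ in Filter.atTop, ((5 * r + 2 ^ (r + 1) + 1 : ℕ) : ℝ) ≤ x ^ η ∧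
      ((y0 + 2 : ℕ) : ℝ) ≤ x ^ (1 / 2 : ℝ) :=
    ((tendsto_rpow_atTop hη0).eventually_ge_atTop _).and
      ((tendsto_rpow_atTop (by norm_num)).eventually_ge_atTop _)
  obtain ⟨n1, hn1⟩ := Filter.eventually_atTop.1 (tendsto_natCast_atTop_atTop.eventually hev)
  refine ⟨η, hη0, max n1 2, fun n hn c δ h hI hc0 hcr θ hθ Δ hΔ hns => ?_⟩
  have hnn1 : n1 ≤ n := (le_max_left _ _).trans hn
  have hn2 : 2 ≤ n := (le_max_right _ _).trans hn
  obtain ⟨hE1, hE2⟩ := hn1 n hnn1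
  have hnR : (2 : ℝ) ≤ n := by exact_mod_cast hn2
  have hn1' : (1 : ℝ) ≤ n := by linarith
  have hnpos : (0 : ℝ) < n := by linarith
  by_contra hcon
  push Not at hcon
  have hrR : (1 : ℝ) ≤ r := by exact_mod_cast hr
  have h2rR : (4 : ℝ) ≤ 2 ^ (r + 1) := by
    calc (4 : ℝ) = 2 ^ (1 + 1) := by norm_num
      _ ≤ 2 ^ (r + 1) := pow_le_pow_right₀ (by norm_num) (by omega)
  have hnη : (10 : ℝ) ≤ (n : ℝ) ^ η := by
    refine le_trans ?_ hE1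
    push_cast
    linarith
  obtain ⟨V, hV⟩ : ∃ V : ℕ, V = ⌊2 * (n : ℝ) ^ η⌋₊ := ⟨_, rfl⟩
  have hV1 : (V : ℝ) ≤ 2 * (n : ℝ) ^ η := by rw [hV]; exact Nat.floor_le (by positivity)
  have hV2 : 2 * (n : ℝ) ^ η < V + 1 := by rw [hV]; exact Nat.lt_floor_add_one _
  obtain ⟨T, hT⟩ : ∃ T : ℕ, T = r * (V + 1) + 2 ^ (r + 1) + 2 * r + 1 := ⟨_, rfl⟩
  have hTR : (T : ℝ) ≤ (n : ℝ) ^ (2 * η) := by
    have h1 : (T : ℝ) ≤ (5 * r + 2 ^ (r + 1) + 1) * (n : ℝ) ^ η := by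
      rw [hT]
      push_cast
      have h2 : (r : ℝ) * (V + 1) ≤ r * (3 * (n : ℝ) ^ η) :=
        mul_le_mul_of_nonneg_left (by linarith) (by linarith)
      have h3 : (2 : ℝ) ^ (r + 1) ≤ 2 ^ (r + 1) * (n : ℝ) ^ η :=
        le_mul_of_one_le_right (by positivity) (by linarith)
      have h4 : (2 : ℝ) * r ≤ 2 * r * (n : ℝ) ^ η :=
        le_mul_of_one_le_right (by positivity) (by linarith)
      nlinarith
    have h2 : (n : ℝ) ^ (2 * η) = (n : ℝ) ^ η * (n : ℝ) ^ η := by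
      rw [← Real.rpow_add hnpos]
      congr 1
      ring
    rw [h2]
    refine h1.trans (mul_le_mul_of_nonneg_right ?_ (by positivity))
    push_cast at hE1
    exact hE1
  have hT0 : 0 < T := by
    rw [hT]
    exact Nat.succ_pos _
  have hT0R : (0 : ℝ) < T := by exact_mod_cast hT0
  have hcV : (c r).natAbs < 2 ^ (V + 1) := by
    have h1 : ((c r).natAbs : ℝ) = |((c r : ℤ) : ℝ)| := by
      rw [Nat.cast_natAbs, Int.cast_abs]
    have h2 : ((c r).natAbs : ℝ) < (2 : ℝ) ^ (V + 1) := by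
      rw [h1]
      refine hcr.trans_lt ?_
      have h3 : (2 : ℝ) ^ (V + 1) = Real.exp ((V + 1) * Real.log 2) := by
        rw [mul_comm, Real.exp_mul, Real.exp_log (by norm_num)]
        exact_mod_cast (Real.rpow_natCast 2 (V + 1)).symm
      rw [h3, Real.exp_lt_exp]
      have h4 := Real.log_two_gt_d9
      nlinarith
    exact_mod_cast h2
  obtain ⟨D, hD⟩ : ∃ D : ℕ, D = Δ.natAbs := ⟨_, rfl⟩
  have hDabs : |(Δ : ℝ)| = D := by
    rw [hD, Nat.cast_natAbs, Int.cast_abs]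
  rw [hDabs] at hcon
  have hcon' : (D : ℝ) < (n : ℝ) ^ (q - ε1) := by
    refine lt_of_lt_of_le hcon ?_
    rw [hq]
    exact Real.rpow_le_rpow_of_exponent_le hn1' (by linarith)
  have hle : Δ.natAbs * T ^ 14 < n ^ 14 := by
    rw [← hD]
    have h1 : (D : ℝ) * (T : ℝ) ^ 14 < (n : ℝ) ^ 14 := by
      have h2 : (T : ℝ) ^ 14 ≤ (n : ℝ) ^ (7 : ℝ) := by
        calc (T : ℝ) ^ 14 ≤ ((n : ℝ) ^ (2 * η)) ^ 14 := pow_le_pow_left₀ hT0R.le hTR 14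
          _ = (n : ℝ) ^ (2 * η * 14) := by
              rw [← Real.rpow_natCast, ← Real.rpow_mul hnpos.le]
              norm_num
          _ ≤ (n : ℝ) ^ (7 : ℝ) := Real.rpow_le_rpow_of_exponent_le hn1' (by
              rw [hη]
              linarith)
      have h3 : (D : ℝ) < (n : ℝ) ^ (7 : ℝ) :=
        hcon'.trans_le (Real.rpow_le_rpow_of_exponent_le hn1' (by linarith))
      have h4 : (n : ℝ) ^ 14 = (n : ℝ) ^ (7 : ℝ) * (n : ℝ) ^ (7 : ℝ) := by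
        rw [← Real.rpow_add hnpos, ← Real.rpow_natCast]
        norm_num
      rw [h4]
      calc (D : ℝ) * (T : ℝ) ^ 14 ≤ D * (n : ℝ) ^ (7 : ℝ) :=
            mul_le_mul_of_nonneg_left h2 (Nat.cast_nonneg _)
        _ < (n : ℝ) ^ (7 : ℝ) * (n : ℝ) ^ (7 : ℝ) := mul_lt_mul_of_pos_right h3 (by positivity)
    exact_mod_cast h1
  obtain ⟨m, hmz, ψ, hodd, hsq, hmk, hne, hmD, E, hE, hEk, hgood⟩ :=
    core_disc n V T hr h hI hc0 hcV hT θ hθ Δ hΔ hns hle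
  -- the range
  have hyR : (n : ℝ) ^ (1 - 2 * η) ≤ (n : ℝ) / T := by
    rw [le_div_iff₀ hT0R]
    calc (n : ℝ) ^ (1 - 2 * η) * T ≤ (n : ℝ) ^ (1 - 2 * η) * (n : ℝ) ^ (2 * η) :=
          mul_le_mul_of_nonneg_left hTR (by positivity)
      _ = n := by
          rw [← Real.rpow_add hnpos]
          simp
  have hyN : (n : ℝ) / T < ((n / T : ℕ) : ℝ) + 1 := by
    rw [div_lt_iff₀ hT0R]
    have h1 : n < (n / T + 1) * T := by
      rw [mul_comm]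
      exact Nat.lt_mul_div_succ n hT0
    exact_mod_cast h1
  have hhalf : (n : ℝ) ^ (1 / 2 : ℝ) ≤ (n : ℝ) ^ (1 - 2 * η) :=
    Real.rpow_le_rpow_of_exponent_le hn1' (by
      rw [hη]
      linarith)
  have hyy0 : y0 ≤ n / T := by
    have h1 : ((y0 + 2 : ℕ) : ℝ) < ((n / T : ℕ) : ℝ) + 1 := by linarith
    push_cast at h1
    have h2 : (y0 : ℝ) < ((n / T : ℕ) : ℝ) := by linarith
    exact_mod_cast h2.le
  have hkey := hy0 m ψ hodd hsq hmk hne E (n / T) hE hEk hyy0 hgood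
  rw [← hD] at hmD
  have hmD' : ((8 * m : ℕ) : ℝ) ≤ 8 * (n : ℝ) ^ (q - ε1) := by
    push_cast
    have : (m : ℝ) ≤ D := by exact_mod_cast hmD
    linarith
  have hb0 : 0 < 1 / (4 * Real.exp (1 / 2)) + ε1 / 98 := by positivity
  have hb1 : 1 / (4 * Real.exp (1 / 2)) + ε1 / 98 ≤ 1 := by
    have : 1 / (4 * Real.exp (1 / 2)) ≤ 1 / 6 := by
      apply one_div_le_one_div_of_le (by norm_num)
      linarith
    linarith
  have h8 : ((8 * m : ℕ) : ℝ) ^ (1 / (4 * Real.exp (1 / 2)) + ε1 / 98) ≤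
      8 * (n : ℝ) ^ (1 - ε1 / 14) := by
    calc ((8 * m : ℕ) : ℝ) ^ (1 / (4 * Real.exp (1 / 2)) + ε1 / 98) ≤
        (8 * (n : ℝ) ^ (q - ε1)) ^ (1 / (4 * Real.exp (1 / 2)) + ε1 / 98) :=
          Real.rpow_le_rpow (Nat.cast_nonneg _) hmD' hb0.le
      _ = 8 ^ (1 / (4 * Real.exp (1 / 2)) + ε1 / 98) *
          (n : ℝ) ^ ((q - ε1) * (1 / (4 * Real.exp (1 / 2)) + ε1 / 98)) := by
          rw [Real.mul_rpow (by norm_num) (by positivity), ← Real.rpow_mul hnpos.le]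
      _ ≤ 8 * (n : ℝ) ^ (1 - ε1 / 14) := by
          refine mul_le_mul ?_ ?_ (by positivity) (by norm_num)
          · calc (8 : ℝ) ^ (1 / (4 * Real.exp (1 / 2)) + ε1 / 98) ≤ 8 ^ (1 : ℝ) :=
                  Real.rpow_le_rpow_of_exponent_le (by norm_num) hb1
              _ = 8 := Real.rpow_one 8
          · apply Real.rpow_le_rpow_of_exponent_le hn1'
            rw [← hq]
            have hq0 : 0 < q := by linarith
            have e1 : (q - ε1) * (1 / q + ε1 / 98) = 1 - ε1 / q + (q - ε1) * (ε1 / 98) := by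
              field_simp
            rw [e1]
            have e2 : ε1 / 7 ≤ ε1 / q := by
              apply div_le_div_of_nonneg_left hε10.le hq0 hq7
            nlinarith
  have h9 : (n : ℝ) ^ (1 - 2 * η) = (n : ℝ) ^ (1 - ε1 / 14) * ((n : ℝ) ^ η * (n : ℝ) ^ η) := by
    rw [← Real.rpow_add hnpos, ← Real.rpow_add hnpos]
    congr 1
    rw [hη]
    ring
  have h10 : (n : ℝ) ^ (1 - 2 * η) < 8 * (n : ℝ) ^ (1 - ε1 / 14) + 1 := by linarith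
  have h12 : 1 ≤ (n : ℝ) ^ (1 - ε1 / 14) := Real.one_le_rpow hn1' (by linarith)
  rw [h9] at h10
  have h13 : 100 ≤ (n : ℝ) ^ η * (n : ℝ) ^ η := by nlinarith
  have h14 : (n : ℝ) ^ (1 - ε1 / 14) * 100 ≤
      (n : ℝ) ^ (1 - ε1 / 14) * ((n : ℝ) ^ η * (n : ℝ) ^ η) :=
    mul_le_mul_of_nonneg_left h13 (by linarith)
  linarith

end Pool.Agent.Q42.PP
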